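import Pool.Agent.Helper85.VC.Good

/-! # The common theory of the structures `Pt f` and its models -/

namespace Pool.Agent.Helper85.VC

open FirstOrder FirstOrder.Language FirstOrder.Language.Structure Cardinal

variable {L : FirstOrder.Language.{0, 0}}

section ptEquiv

variable {A B M A' B' M' : Type} [L.Structure M] [L.Structure M']

/-- the map between the structures `Pt f` induced by maps of the sorts -/
def ptMap (f : A → B → M) (f' : A' → B' → M') (j : M → M') (α : A → A') (β : B → B') :
    Pt f → Pt f'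
  | PtT.inf => Pt.inf f'
  | PtT.m x => Pt.m f' (j x)
  | PtT.p x => Pt.p f' (α x)
  | PtT.q x => Pt.q f' (β x)

/-- the bijection between the structures `Pt f` induced by bijections of the sorts -/
def ptEq (f : A → B → M) (f' : A' → B' → M') (j : M ≃ M') (α : A ≃ A') (β : B ≃ B') :
    Pt f ≃ Pt f' where
  toFun := ptMap f f' j α β
  invFun := ptMap f' f j.symm α.symm β.symm
  left_inv := by
    rintro (_ | x | x | x)
    · rfl
    · exact congrArg (Pt.m f) (j.symm_apply_apply x)
    · exact congrArg (Pt.p f) (α.symm_apply_apply x)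
    · exact congrArg (Pt.q f) (β.symm_apply_apply x)
  right_inv := by
    rintro (_ | x | x | x)
    · rfl
    · exact congrArg (Pt.m f') (j.apply_symm_apply x)
    · exact congrArg (Pt.p f') (α.apply_symm_apply x)
    · exact congrArg (Pt.q f') (β.apply_symm_apply x)

variable {f : A → B → M} {f' : A' → B' → M'}

theorem ptMap_isM (j : M → M') (α : A → A') (β : B → B') (x : Pt f) :
    isM L (ptMap f f' j α β x) ↔ isM L x := by
  rw [pt_isM, pt_isM]
  rcases x with _ | x | x | x
  · exact iff_of_false (by rintro ⟨y, hy⟩; cases hy) (by rintro ⟨y, hy⟩; cases hy)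
  · exact iff_of_true ⟨j x, rfl⟩ ⟨x, rfl⟩
  · exact iff_of_false (by rintro ⟨y, hy⟩; cases hy) (by rintro ⟨y, hy⟩; cases hy)
  · exact iff_of_false (by rintro ⟨y, hy⟩; cases hy) (by rintro ⟨y, hy⟩; cases hy)

theorem ptMap_isP (j : M → M') (α : A → A') (β : B → B') (x : Pt f) :
    isP L (ptMap f f' j α β x) ↔ isP L x := by
  rw [pt_isP, pt_isP]
  rcases x with _ | x | x | x
  · exact iff_of_false (by rintro ⟨y, hy⟩; cases hy) (by rintro ⟨y, hy⟩; cases hy)
  · exact iff_of_false (by rintro ⟨y, hy⟩; cases hy) (by rintro ⟨y, hy⟩; cases hy)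
  · exact iff_of_true ⟨α x, rfl⟩ ⟨x, rfl⟩
  · exact iff_of_false (by rintro ⟨y, hy⟩; cases hy) (by rintro ⟨y, hy⟩; cases hy)

theorem ptMap_isQ (j : M → M') (α : A → A') (β : B → B') (x : Pt f) :
    isQ L (ptMap f f' j α β x) ↔ isQ L x := by
  rw [pt_isQ, pt_isQ]
  rcases x with _ | x | x | x
  · exact iff_of_false (by rintro ⟨y, hy⟩; cases hy) (by rintro ⟨y, hy⟩; cases hy)
  · exact iff_of_false (by rintro ⟨y, hy⟩; cases hy) (by rintro ⟨y, hy⟩; cases hy)
  · exact iff_of_false (by rintro ⟨y, hy⟩; cases hy) (by rintro ⟨y, hy⟩; cases hy)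
  · exact iff_of_true ⟨β x, rfl⟩ ⟨x, rfl⟩

/-- isomorphism of the structures `Pt f` induced by compatible bijections of the sorts -/
noncomputable def ptEquiv (j : M ≃[L] M') (α : A ≃ A') (β : B ≃ B')
    (hj : ∀ a b, f' (α a) (β b) = j (f a b)) : Pt f ≃[LL L] Pt f' where
  toEquiv := ptEq f f' j.toEquiv α β
  map_fun' := by
    intro n g x
    rcases g with g | g
    · change ptMap f f' j α β (gg L g x) = gg L g (fun i => ptMap f f' j α β (x i))
      by_cases hx : ∀ i, isM L (x i)
      · obtain ⟨ys, rfl⟩ := exists_m_of_forall x hx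
        rw [pt_gg_m]
        change Pt.m f' (j (funMap g ys)) = gg L g (fun i => Pt.m f' (j (ys i)))
        rw [pt_gg_m]
        exact congrArg (Pt.m f') (j.map_fun g ys)
      · have h1 : ¬ ∃ ys : _ → M, x = fun i => Pt.m f (ys i) := by
          rintro ⟨ys, rfl⟩
          exact hx fun i => ⟨ys i, rfl⟩
        have h2 : ¬ ∃ ys : _ → M', (fun i => ptMap f f' j α β (x i)) =
            fun i => Pt.m f' (ys i) := by
          rintro ⟨ys, h3⟩
          exact hx fun i => (ptMap_isM (f' := f') j α β (x i)).1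
            ((pt_isM f' _).2 ⟨ys i, congrFun h3 i⟩)
        rw [pt_gg_junk _ _ _ h1, pt_gg_junk _ _ _ h2]
        rfl
    · rcases g with _ | _
      · rfl
      · rw [vec2 x]
        change ptMap f f' j α β (ptF f (x 0) (x 1)) =
          ptF f' (ptMap f f' j α β (x 0)) (ptMap f f' j α β (x 1))
        generalize x 0 = u
        generalize x 1 = v
        rcases u with _ | u | u | u <;> rcases v with _ | v | v | v <;> first | rfl | skip
        exact congrArg (Pt.m f') (hj u v).symm
  map_rel' := by
    intro n R x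
    rcases R with R | R
    · change rr L R (fun i => ptMap f f' j α β (x i)) ↔ rr L R x
      by_cases hx : ∀ i, isM L (x i)
      · obtain ⟨ys, rfl⟩ := exists_m_of_forall x hx
        rw [pt_rr_m]
        change rr L R (fun i => Pt.m f' (j (ys i))) ↔ _
        rw [pt_rr_m]
        exact j.map_rel R ys
      · refine iff_of_false ?_ ?_
        · rw [pt_rr_iff]
          rintro ⟨ys, h3, -⟩
          exact hx fun i => (ptMap_isM (f' := f') j α β (x i)).1
            ((pt_isM f' _).2 ⟨ys i, congrFun h3 i⟩)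
        · rw [pt_rr_iff]
          rintro ⟨ys, rfl, -⟩
          exact hx fun i => ⟨ys i, rfl⟩
    · have e : ∀ y : Pt f, (ptMap f f' j α β ∘ ![y]) = ![ptMap f f' j α β y] := by
        intro y
        funext i
        fin_cases i
        rfl
      rcases R with _ | _ | _ <;> rw [vec1 x]
      · exact (e (x 0)) ▸ ptMap_isM (f' := f') j α β (x 0)
      · exact (e (x 0)) ▸ ptMap_isP (L := L) (f' := f') j α β (x 0)
      · exact (e (x 0)) ▸ ptMap_isQ (L := L) (f' := f') j α β (x 0)

end ptEquiv

theorem good_pt {A B M : Type} [L.Structure M] [Nonempty M] (f : A → B → M) (hf : Gen f) :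
    Good L (Pt f) where
  total := by
    rintro (_ | x | x | x)
    · exact Or.inr (Or.inr (Or.inr rfl))
    · exact Or.inl ⟨x, rfl⟩
    · exact Or.inr (Or.inl ⟨x, rfl⟩)
    · exact Or.inr (Or.inr (Or.inl ⟨x, rfl⟩))
  mp := by rintro _ ⟨x, rfl⟩ ⟨y, hy⟩; cases hy
  mq := by rintro _ ⟨x, rfl⟩ ⟨y, hy⟩; cases hy
  pq := by rintro _ ⟨x, rfl⟩ ⟨y, hy⟩; cases hy
  infm := by rintro ⟨y, hy⟩; cases hy
  infp := by rintro ⟨y, hy⟩; cases hy
  infq := by rintro ⟨y, hy⟩; cases hy
  F_mem := by
    rintro _ _ ⟨x, rfl⟩ ⟨y, rfl⟩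
    exact ⟨f x y, rfl⟩
  F_junk := by
    intro x y h
    rw [pt_FF]
    rcases x with _ | x | x | x <;> rcases y with _ | y | y | y <;> first | rfl | skip
    exact absurd ⟨⟨x, rfl⟩, ⟨y, rfl⟩⟩ h
  fun_mem := by
    intro n g xs h
    obtain ⟨ys, rfl⟩ := exists_m_of_forall xs h
    rw [pt_gg_m]
    exact ⟨_, rfl⟩
  fun_junk := by
    intro n g xs i h
    refine pt_gg_junk f g xs ?_
    rintro ⟨ys, rfl⟩
    exact h ⟨ys i, rfl⟩
  rel_mem := by
    intro n R xs i h
    rw [pt_rr_iff] at h
    obtain ⟨ys, rfl, -⟩ := h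
    exact ⟨ys i, rfl⟩
  left := by
    classical
    intro I J _ _ ps qs zs hinj hq hz
    choose b hb using fun j => (pt_isQ (L := L) f (qs j)).1 (hq j)
    choose z hz using fun j => (pt_isM (L := L) f (zs j)).1 (hz j)
    have := Fintype.ofFinite I
    have := Fintype.ofFinite J
    let S : Finset A := (Finset.univ.image ps).preimage (Pt.p f) (fun x _ y _ h => Pt.p_inj h)
    let v : B → M := fun c => if h : ∃ j, b j = c then z h.choose else Classical.arbitrary M
    obtain ⟨a, ha, hv⟩ := hf.left S (Finset.univ.image b) v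
    refine ⟨Pt.p f a, ⟨a, rfl⟩, ?_, ?_⟩
    · intro i hi
      apply ha
      exact Finset.mem_preimage.2 (Finset.mem_image.2 ⟨i, Finset.mem_univ _, hi.symm⟩)
    · intro j
      rw [hb j, hz j]
      have h1 : ∃ j', b j' = b j := ⟨j, rfl⟩
      have h2 : h1.choose = j := by
        apply hinj
        rw [hb, hb j, h1.choose_spec]
      have h3 : f a (b j) = v (b j) := hv _ (Finset.mem_image_of_mem _ (Finset.mem_univ _))
      have h4 : v (b j) = z j := by
        change (if h : ∃ j', b j' = b j then z h.choose else Classical.arbitrary M) = _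
        rw [dif_pos h1, h2]
      exact congrArg (Pt.m f) (h3.trans h4)
  right := by
    classical
    intro I J _ _ qs ps zs hinj hp hz
    choose b hb using fun j => (pt_isP (L := L) f (ps j)).1 (hp j)
    choose z hz using fun j => (pt_isM (L := L) f (zs j)).1 (hz j)
    have := Fintype.ofFinite I
    have := Fintype.ofFinite J
    let S : Finset B := (Finset.univ.image qs).preimage (Pt.q f) (fun x _ y _ h => Pt.q_inj h)
    let v : A → M := fun c => if h : ∃ j, b j = c then z h.choose else Classical.arbitrary M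
    obtain ⟨a, ha, hv⟩ := hf.right S (Finset.univ.image b) v
    refine ⟨Pt.q f a, ⟨a, rfl⟩, ?_, ?_⟩
    · intro i hi
      apply ha
      exact Finset.mem_preimage.2 (Finset.mem_image.2 ⟨i, Finset.mem_univ _, hi.symm⟩)
    · intro j
      rw [hb j, hz j]
      have h1 : ∃ j', b j' = b j := ⟨j, rfl⟩
      have h2 : h1.choose = j := by
        apply hinj
        rw [hb, hb j, h1.choose_spec]
      have h3 : f (b j) a = v (b j) := hv _ (Finset.mem_image_of_mem _ (Finset.mem_univ _))
      have h4 : v (b j) = z j := by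
        change (if h : ∃ j', b j' = b j then z h.choose else Classical.arbitrary M) = _
        rw [dif_pos h1, h2]
      exact congrArg (Pt.m f) (h3.trans h4)
  ne := ⟨Pt.m f (Classical.arbitrary M), ⟨_, rfl⟩⟩

end Pool.Agent.Helper85.VC
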