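import Mathlib

/-! # Generic functions `A → B → M`: existence and uniqueness (back and forth) -/

namespace Pool.Agent.Helper85.VC

/-- `f : A → B → M` is generic: every finite requirement on a new row or column is met. -/
structure Gen {A B M : Type} (f : A → B → M) : Prop where
  left : ∀ (S : Finset A) (t : Finset B) (v : B → M), ∃ a, a ∉ S ∧ ∀ b ∈ t, f a b = v b
  right : ∀ (t : Finset B) (S : Finset A) (v : A → M), ∃ b, b ∉ t ∧ ∀ a ∈ S, f a b = v a

theorem Gen.flip {A B M : Type} {f : A → B → M} (h : Gen f) : Gen (fun b a => f a b) :=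
  ⟨h.right, h.left⟩

theorem exists_gen (M : Type) [Countable M] [Nonempty M] : ∃ f : ℕ → ℕ → M, Gen f := by
  obtain ⟨g, hg⟩ := exists_surjective_nat (List M)
  let m0 : M := Classical.arbitrary M
  have key : ∀ (S t : Finset ℕ) (v : ℕ → M), ∃ N k, (∀ x ∈ S, x < N) ∧ (∀ x ∈ t, x < N) ∧
      N ≤ k ∧ ∀ q < N, (g k.unpair.1).getD q m0 = v q := by
    intro S t v
    let N := S.sup id + t.sup id + 1
    obtain ⟨j, hj⟩ := hg ((List.range N).map v)
    refine ⟨N, Nat.pair j N, fun x hx => ?_, fun x hx => ?_, Nat.right_le_pair _ _, ?_⟩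
    · have : x ≤ S.sup id := Finset.le_sup (f := id) hx
      omega
    · have : x ≤ t.sup id := Finset.le_sup (f := id) hx
      omega
    · intro q hq
      simp [Nat.unpair_pair, hj, List.getD_eq_getElem?_getD, hq]
  refine ⟨fun p q => if q ≤ p then (g p.unpair.1).getD q m0 else (g q.unpair.1).getD p m0,
    ?_, ?_⟩
  · intro S t v
    obtain ⟨N, k, hS, ht, hNk, hv⟩ := key S t v
    refine ⟨k, fun hk => ?_, fun b hb => ?_⟩
    · have := hS k hk
      omega
    · have := ht b hb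
      rw [if_pos (by omega), hv b this]
  · intro t S v
    obtain ⟨N, k, hS, ht, hNk, hv⟩ := key S t v
    refine ⟨k, fun hk => ?_, fun a ha => ?_⟩
    · have := ht k hk
      omega
    · have := hS a ha
      rw [if_neg (by omega), hv a this]

section BF

variable {A B A' B' M : Type}

/-- a pair of finite partial bijections respecting the functions -/
def Ok (f : A → B → M) (f' : A' → B' → M) (s : Finset (A × A')) (t : Finset (B × B')) : Prop :=
  (∀ x ∈ s, ∀ y ∈ s, x.1 = y.1 ↔ x.2 = y.2) ∧ (∀ x ∈ t, ∀ y ∈ t, x.1 = y.1 ↔ x.2 = y.2) ∧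
    ∀ x ∈ s, ∀ y ∈ t, f x.1 y.1 = f' x.2 y.2

theorem Ok.flip {f : A → B → M} {f' : A' → B' → M} {s : Finset (A × A')} {t : Finset (B × B')}
    (h : Ok f f' s t) : Ok (fun b a => f a b) (fun b a => f' a b) t s :=
  ⟨h.2.1, h.1, fun x hx y hy => h.2.2 y hy x hx⟩

theorem Ok.swap {f : A → B → M} {f' : A' → B' → M} {s : Finset (A × A')} {t : Finset (B × B')}
    (h : Ok f f' s t) : Ok f' f (s.map (Equiv.prodComm A A').toEmbedding)
      (t.map (Equiv.prodComm B B').toEmbedding) := by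
  refine ⟨?_, ?_, ?_⟩
  · simp only [Finset.mem_map_equiv]
    intro x hx y hy
    exact (h.1 _ hx _ hy).symm
  · simp only [Finset.mem_map_equiv]
    intro x hx y hy
    exact (h.2.1 _ hx _ hy).symm
  · simp only [Finset.mem_map_equiv]
    intro x hx y hy
    exact (h.2.2 _ hx _ hy).symm

open Classical in
theorem Ok.ext1 [Nonempty M] {f : A → B → M} {f' : A' → B' → M} {s : Finset (A × A')}
    {t : Finset (B × B')} (hf' : Gen f') (h : Ok f f' s t) (a : A) :
    ∃ s', s ⊆ s' ∧ Ok f f' s' t ∧ ∃ a', (a, a') ∈ s' := by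
  by_cases ha : ∃ a', (a, a') ∈ s
  · exact ⟨s, Finset.Subset.refl _, h, ha⟩
  · let v : B' → M := fun b' => if hb : ∃ b, (b, b') ∈ t then f a hb.choose
      else Classical.arbitrary M
    obtain ⟨a', ha', hv⟩ := hf'.left (s.image Prod.snd) (t.image Prod.snd) v
    have hv' : ∀ y ∈ t, f a y.1 = f' a' y.2 := by
      intro y hy
      rw [hv y.2 (Finset.mem_image_of_mem _ hy)]
      have hb : ∃ b, (b, y.2) ∈ t := ⟨y.1, hy⟩
      have e1 : v y.2 = f a hb.choose := dif_pos hb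
      rw [e1, (h.2.1 y hy (hb.choose, y.2) hb.choose_spec).2 rfl]
    refine ⟨insert (a, a') s, Finset.subset_insert _ _, ⟨?_, h.2.1, ?_⟩, a',
      Finset.mem_insert_self _ _⟩
    · intro x hx y hy
      rcases Finset.mem_insert.1 hx with rfl | hx' <;> rcases Finset.mem_insert.1 hy with rfl | hy'
      · simp
      · refine iff_of_false (fun h1 => ha ⟨y.2, ?_⟩) (fun h2 => ha' ?_)
        · have h1' : a = y.1 := h1
          rw [h1']
          exact hy'
        · have h2' : a' = y.2 := h2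
          rw [h2']
          exact Finset.mem_image_of_mem _ hy'
      · refine iff_of_false (fun h1 => ha ⟨x.2, ?_⟩) (fun h2 => ha' ?_)
        · have h1' : x.1 = a := h1
          rw [← h1']
          exact hx'
        · have h2' : x.2 = a' := h2
          rw [← h2']
          exact Finset.mem_image_of_mem _ hx'
      · exact h.1 x hx' y hy'
    · intro x hx y hy
      rcases Finset.mem_insert.1 hx with rfl | hx'
      · exact hv' y hy
      · exact h.2.2 x hx' y hy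

theorem Ok.ext2 [Nonempty M] {f : A → B → M} {f' : A' → B' → M} {s : Finset (A × A')}
    {t : Finset (B × B')} (hf : Gen f) (h : Ok f f' s t) (a' : A') :
    ∃ s', s ⊆ s' ∧ Ok f f' s' t ∧ ∃ a, (a, a') ∈ s' := by
  obtain ⟨s', h1, h2, a, ha⟩ := h.swap.ext1 hf a'
  refine ⟨s'.map (Equiv.prodComm A' A).toEmbedding, fun x hx => ?_, ?_, a, ?_⟩
  · rw [Finset.mem_map_equiv]
    apply h1
    rw [Finset.mem_map_equiv]
    exact hx
  · have := h2.swap
    rwa [Finset.map_map, show ((Equiv.prodComm B B').toEmbedding.trans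
      (Equiv.prodComm B' B).toEmbedding) = Function.Embedding.refl _ from rfl,
      Finset.map_refl] at this
  · rw [Finset.mem_map_equiv]
    exact ha

theorem Ok.step [Nonempty M] {f : A → B → M} {f' : A' → B' → M} {s : Finset (A × A')}
    {t : Finset (B × B')} (hf : Gen f) (hf' : Gen f') (h : Ok f f' s t) (a : A) (a' : A')
    (b : B) (b' : B') :
    ∃ s' t', s ⊆ s' ∧ t ⊆ t' ∧ Ok f f' s' t' ∧ (∃ x, (a, x) ∈ s') ∧ (∃ x, (x, a') ∈ s') ∧
      (∃ x, (b, x) ∈ t') ∧ (∃ x, (x, b') ∈ t') := by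
  obtain ⟨s1, hs1, h1, x1, hx1⟩ := h.ext1 hf' a
  obtain ⟨s2, hs2, h2, x2, hx2⟩ := h1.ext2 hf a'
  obtain ⟨t1, ht1, h3, x3, hx3⟩ := h2.flip.ext1 hf'.flip b
  obtain ⟨t2, ht2, h4, x4, hx4⟩ := h3.ext2 hf.flip b'
  exact ⟨s2, t2, hs1.trans hs2, ht1.trans ht2, h4.flip, ⟨x1, hs2 hx1⟩, ⟨x2, hx2⟩,
    ⟨x3, ht2 hx3⟩, ⟨x4, hx4⟩⟩

/-- limits of increasing chains of finite partial bijections are bijections -/
theorem limit_equiv {C C' : Type} (s : ℕ → Finset (C × C')) (hm : Monotone s)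
    (h1 : ∀ n, ∀ x ∈ s n, ∀ y ∈ s n, x.1 = y.1 ↔ x.2 = y.2)
    (h2 : ∀ c, ∃ n x, (c, x) ∈ s n) (h3 : ∀ c', ∃ n x, (x, c') ∈ s n) :
    ∃ α : C ≃ C', (∀ c, ∃ n, (c, α c) ∈ s n) ∧ ∀ n, ∀ x ∈ s n, α x.1 = x.2 := by
  choose n x hx using h2
  have key : ∀ k k' y y', y ∈ s k → y' ∈ s k' → (y.1 = y'.1 ↔ y.2 = y'.2) := by
    intro k k' y y' hy hy'
    exact h1 (max k k') y (hm (le_max_left _ _) hy) y' (hm (le_max_right _ _) hy')
  have hbij : Function.Bijective x := by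
    constructor
    · intro c d hcd
      exact (key _ _ _ _ (hx c) (hx d)).2 hcd
    · intro c'
      obtain ⟨k, c, hc⟩ := h3 c'
      exact ⟨c, (key _ _ _ _ (hx c) hc).1 rfl⟩
  refine ⟨Equiv.ofBijective x hbij, fun c => ⟨n c, hx c⟩, fun k y hy => ?_⟩
  exact (key _ _ _ _ (hx y.1) hy).1 rfl

/-- Back and forth. -/
theorem Gen.unique [Nonempty M] [Countable A] [Countable B] [Countable A'] [Countable B']
    {f : A → B → M} {f' : A' → B' → M} (hf : Gen f) (hf' : Gen f') {s : Finset (A × A')}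
    {t : Finset (B × B')} (h : Ok f f' s t) :
    ∃ (α : A ≃ A') (β : B ≃ B'), (∀ a b, f' (α a) (β b) = f a b) ∧ (∀ x ∈ s, α x.1 = x.2) ∧
      ∀ x ∈ t, β x.1 = x.2 := by
  have v0 : M := Classical.arbitrary M
  have : Nonempty A := ⟨(hf.left ∅ ∅ fun _ => v0).choose⟩
  have : Nonempty B := ⟨(hf.right ∅ ∅ fun _ => v0).choose⟩
  have : Nonempty A' := ⟨(hf'.left ∅ ∅ fun _ => v0).choose⟩
  have : Nonempty B' := ⟨(hf'.right ∅ ∅ fun _ => v0).choose⟩
  obtain ⟨eA, hA⟩ := exists_surjective_nat A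
  obtain ⟨eB, hB⟩ := exists_surjective_nat B
  obtain ⟨eA', hA'⟩ := exists_surjective_nat A'
  obtain ⟨eB', hB'⟩ := exists_surjective_nat B'
  let St := {st : Finset (A × A') × Finset (B × B') // Ok f f' st.1 st.2}
  have hstep : ∀ (n : ℕ) (st : St), ∃ st' : St, st.1.1 ⊆ st'.1.1 ∧ st.1.2 ⊆ st'.1.2 ∧
      (∃ x, (eA n, x) ∈ st'.1.1) ∧ (∃ x, (x, eA' n) ∈ st'.1.1) ∧
      (∃ x, (eB n, x) ∈ st'.1.2) ∧ (∃ x, (x, eB' n) ∈ st'.1.2) := by
    intro n st
    obtain ⟨s', t', h1, h2, h3, h4⟩ := st.2.step hf hf' (eA n) (eA' n) (eB n) (eB' n)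
    exact ⟨⟨(s', t'), h3⟩, h1, h2, h4⟩
  choose F hF1 hF2 hF3 hF4 hF5 hF6 using hstep
  let seq : ℕ → St := fun n => Nat.rec ⟨(s, t), h⟩ (fun n st => F n st) n
  have hseq : ∀ n, seq (n + 1) = F n (seq n) := fun n => rfl
  have hm1 : Monotone fun n => (seq n).1.1 :=
    monotone_nat_of_le_succ fun n => by rw [hseq]; exact hF1 n (seq n)
  have hm2 : Monotone fun n => (seq n).1.2 :=
    monotone_nat_of_le_succ fun n => by rw [hseq]; exact hF2 n (seq n)
  obtain ⟨α, hα, hα'⟩ := limit_equiv (fun n => (seq n).1.1) hm1 (fun n => (seq n).2.1)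
    (fun c => by
      obtain ⟨n, rfl⟩ := hA c
      obtain ⟨x, hx⟩ := hF3 n (seq n)
      exact ⟨n + 1, x, hx⟩)
    (fun c => by
      obtain ⟨n, rfl⟩ := hA' c
      obtain ⟨x, hx⟩ := hF4 n (seq n)
      exact ⟨n + 1, x, hx⟩)
  obtain ⟨β, hβ, hβ'⟩ := limit_equiv (fun n => (seq n).1.2) hm2 (fun n => (seq n).2.2.1)
    (fun c => by
      obtain ⟨n, rfl⟩ := hB c
      obtain ⟨x, hx⟩ := hF5 n (seq n)
      exact ⟨n + 1, x, hx⟩)
    (fun c => by
      obtain ⟨n, rfl⟩ := hB' c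
      obtain ⟨x, hx⟩ := hF6 n (seq n)
      exact ⟨n + 1, x, hx⟩)
  refine ⟨α, β, fun a b => ?_, hα' 0, hβ' 0⟩
  obtain ⟨n, hn⟩ := hα a
  obtain ⟨m, hm⟩ := hβ b
  exact ((seq (max n m)).2.2.2 _ (hm1 (le_max_left n m) hn) _ (hm2 (le_max_right n m) hm)).symm

end BF

end Pool.Agent.Helper85.VC
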