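import Pool.Agent.Helper85.VC.Str

/-!
# Good pseudotypes over a definable set: definitions

Everything lives in universe `0`: languages `L : Language.{0, 0}` and models in `Type`.
-/

namespace Pool.Agent.Helper85.VC

open FirstOrder Language Cardinal

variable {L : FirstOrder.Language.{0, 0}}

/-- Isomorphism of countable models. -/
def isoSetoid (T : L.Theory) : Setoid (CModel T) where
  r M N := Nonempty (M ≃[L] N)
  iseqv :=
    { refl := fun M => ⟨Language.Equiv.refl L M⟩
      symm := fun ⟨e⟩ => ⟨e.symm⟩
      trans := fun ⟨e⟩ ⟨f⟩ => ⟨f.comp e⟩ }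

/-- `I(T, ℵ₀)`: the number of countable models of `T` up to isomorphism. -/
noncomputable def numModels (T : L.Theory) : Cardinal.{1} := #(Quotient (isoSetoid T))

/-- Vaught's conjecture: a complete theory in a countable language with fewer than continuum
many countable models has at most `ℵ₀` of them. -/
def VaughtConjecture : Prop :=
  ∀ (L : FirstOrder.Language.{0, 0}) [Countable L.Symbols] (T : L.Theory), T.IsComplete →
    numModels T < 𝔠 → numModels T ≤ ℵ₀

/-- `Φ(M)` for `Φ = ⋁ i, Φ i`, a countable disjunction of partial types `Φ i` over `∅`. -/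
def sol (Φ : ℕ → Set (L.Formula (Fin 1))) (M : Type) [L.Structure M] : Set M :=
  {a | ∃ i, ∀ φ ∈ Φ i, φ.Realize (fun _ => a)}

/-- The bijection `e : X → Y` between a subset of the structure `M` and a subset of the
structure `N` is elementary. -/
def Elem (L : FirstOrder.Language.{0, 0}) {M N : Type} [L.Structure M] [L.Structure N] {X : Set M} {Y : Set N}
    (e : X ≃ Y) : Prop :=
  ∀ φ : L.Formula X, φ.Realize (fun x => (x : M)) ↔ φ.Realize (fun x => (e x : N))

/-- The type over `X` of the finite tuple `a` of `N`, where `X` (a subset of `M`) is identified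
with the subset `Y` of `N` through the bijection `e`. -/
def tp (L : FirstOrder.Language.{0, 0}) {M N : Type} [L.Structure N] {X : Set M} {Y : Set N}
    (e : X ≃ Y) {k : ℕ} (a : Fin k → N) : Set (L.Formula (Fin k ⊕ X)) :=
  {φ | φ.Realize (Sum.elim a (fun x => (e x : N)))}

/-- `p` is a good `k`-type over `Q = Φ(M)`: it is the type over `Q` of a `k`-tuple of a countable
model `N` of `T` with `Φ(N) = Q`, the last equality meaning that `Q` is identified with `Φ(N)`
through an elementary bijection. -/
def IsGood {T : L.Theory} (Φ : ℕ → Set (L.Formula (Fin 1))) (M : CModel T) (k : ℕ)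
    (p : Set (L.Formula (Fin k ⊕ sol Φ M))) : Prop :=
  ∃ (N : CModel T) (e : sol Φ M ≃ sol Φ N) (a : Fin k → N), Elem L e ∧ p = tp L e a

theorem Elem.refl {M : Type} [L.Structure M] (X : Set M) : Elem L (Equiv.refl X) := by
  intro φ; rfl

theorem Elem.symm {M N : Type} [L.Structure M] [L.Structure N] {X : Set M} {Y : Set N}
    {e : X ≃ Y} (h : Elem L e) : Elem L e.symm := by
  intro φ
  have := h (φ.relabel e.symm)
  simp only [Formula.realize_relabel] at this
  have h1 : (fun x => ((e x : Y) : N)) ∘ e.symm = fun y : Y => (y : N) := by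
    funext y; simp
  rw [h1] at this
  exact this.symm

theorem Elem.trans {M N K : Type} [L.Structure M] [L.Structure N] [L.Structure K]
    {X : Set M} {Y : Set N} {Z : Set K}
    {e : X ≃ Y} {f : Y ≃ Z} (h : Elem L e) (h' : Elem L f) : Elem L (e.trans f) := by
  intro φ
  have h2 := h' (φ.relabel e)
  simp only [Formula.realize_relabel] at h2
  exact (h φ).trans h2

theorem mem_tp {M N : Type} [L.Structure N] {X : Set M} {Y : Set N}
    {e : X ≃ Y} {k : ℕ} {a : Fin k → N} {φ : L.Formula (Fin k ⊕ X)} :
    φ ∈ tp L e a ↔ φ.Realize (Sum.elim a (fun x => (e x : N))) := Iff.rfl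

theorem mem_tp_relabel {M N : Type} [L.Structure N] {X : Set M} {Y : Set N}
    {e : X ≃ Y} {k : ℕ} {a : Fin k → N} {Z : Type} {φ : L.Formula Z} {g : Z → Fin k ⊕ X} :
    φ.relabel g ∈ tp L e a ↔ φ.Realize (Sum.elim a (fun x => (e x : N)) ∘ g) :=
  Formula.realize_relabel

/-- The relation `p ∼ q`: some elementary permutation of `Q` carries `p` to `q`. -/
def pseudoSetoid {T : L.Theory} (Φ : ℕ → Set (L.Formula (Fin 1))) (M : CModel T) (k : ℕ) :
    Setoid {p : Set (L.Formula (Fin k ⊕ sol Φ M)) // IsGood Φ M k p} where
  r p q := ∃ σ : Equiv.Perm (sol Φ M), Elem L σ ∧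
    ∀ φ : L.Formula (Fin k ⊕ sol Φ M), φ ∈ p.1 ↔ φ.relabel (Sum.map id σ) ∈ q.1
  iseqv :=
    { refl := fun p => ⟨Equiv.refl _, Elem.refl _, fun φ => by
        obtain ⟨N, e, a, -, hp⟩ := p.2
        rw [hp, mem_tp_relabel]
        simp only [mem_tp, Equiv.coe_refl, Sum.map_id_id, Function.comp_id]⟩
      symm := fun {p q} ⟨σ, h1, h2⟩ => ⟨σ.symm, Elem.symm h1, fun φ => by
        obtain ⟨N, e, a, -, hq⟩ := q.2
        rw [h2, hq, mem_tp_relabel, Formula.realize_relabel, mem_tp, Function.comp_assoc,
          Sum.map_comp_map, Equiv.self_comp_symm, Function.id_comp, Sum.map_id_id,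
          Function.comp_id]⟩
      trans := fun {p q r} ⟨σ, h1, h2⟩ ⟨τ, h3, h4⟩ => ⟨σ.trans τ, Elem.trans h1 h3, fun φ => by
        obtain ⟨N, e, a, -, hr⟩ := r.2
        rw [h2, h4, hr, mem_tp_relabel, mem_tp_relabel, Formula.realize_relabel,
          Function.comp_assoc, Sum.map_comp_map, Function.id_comp]
        rfl⟩ }

/-- The set of good `Q`-pseudotypes, `Q = Φ(M)`: classes of good types of finite tuples. -/
def GoodPseudotype {T : L.Theory} (Φ : ℕ → Set (L.Formula (Fin 1))) (M : CModel T) : Type :=
  Σ k, Quotient (pseudoSetoid Φ M k)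

/-- The assertion of Q1 for the home sort: for a complete theory `T` with few countable models,
every countable disjunction `Φ` of partial types over `∅` in one variable of the home sort and
every countable model `M` of `T` there are only countably many good `Φ(M)`-pseudotypes of tuples
of elements.  (Only used as an intermediate step.) -/
def Q1Home : Prop :=
  ∀ (L : FirstOrder.Language.{0, 0}) [Countable L.Symbols] (T : L.Theory), T.IsComplete →
    numModels T < 𝔠 → ∀ (Φ : ℕ → Set (L.Formula (Fin 1))) (M : CModel T),
      Countable (GoodPseudotype Φ M)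

/-- The assertion of Q1 restricted to a single formula `φ(x)` such that `T ↾ φ` is the theory of a
pure infinite set (in every countable model `M` of `T` the set `φ(M)` is infinite and each of its
permutations is an elementary map) and to pseudotypes of single elements: if `T` has few countable
models, there are only countably many good `φ(M)`-pseudotypes of single elements. -/
def Q1Pure : Prop :=
  ∀ (L : FirstOrder.Language.{0, 0}) [Countable L.Symbols] (T : L.Theory), T.IsComplete →
    numModels T < 𝔠 → ∀ φ : L.Formula (Fin 1),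
      (∀ M : CModel T, (sol (fun _ => {φ}) M).Infinite ∧
        ∀ σ : Equiv.Perm (sol (fun _ => {φ}) M), Elem L σ) →
      ∀ M : CModel T, Countable (Quotient (pseudoSetoid (fun _ => {φ}) M 1))

end Pool.Agent.Helper85.VC
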