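import Pool.Agent.Helper85.VC.Defs

/-!
# Good pseudotypes over a definable set, in `M^eq`

Here `Φ` is an arbitrary countable disjunction of partial types over `∅` in sorts of `T^eq`, and
types are types of finite tuples of elements of `N^eq`.

A sort of `T^eq` is given by a formula `E(x, y)` in the variables `x₀, x₁, …; y₀, y₁, …` that
defines an equivalence relation on the sequences of elements (as `E` involves only finitely many
variables this is the same thing as a definable equivalence relation on `n`-tuples, some `n`).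
-/

namespace Pool.Agent.Helper85.VC

open FirstOrder Language Cardinal

variable {L : FirstOrder.Language.{0, 0}}

/-- `θ` is a formula about representatives of imaginary elements `v a`, `a : α`, the variable
`(a, j)` standing for the `j`-th coordinate of a representative of `v a`; it is realised at `v` if
it holds for some choice of representatives.  (If `θ` does not depend on the choice of
representatives this is its truth value; every formula of `T^eq` is equivalent to such a `θ`.) -/
def RealizeEq {M : Type} [L.Structure M] {α : Type} (θ : L.Formula (α × ℕ)) (v : α → Imag L M) :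
    Prop :=
  ∃ r : α → ℕ → M, (∀ a, r a ∈ (v a).cls) ∧ θ.Realize (fun x => r x.1 x.2)

/-- `Φ(M) ⊆ M^eq` for a countable disjunction `Φ` of partial types over `∅`: the `i`-th one
consists of a sort `(Φ i).1` and a set `(Φ i).2` of formulas about representatives of an element
of this sort. -/
def solEq (Φ : ℕ → L.Formula (ℕ ⊕ ℕ) × Set (L.Formula ℕ)) (M : Type) [L.Structure M] :
    Set (Imag L M) :=
  {x | ∃ i, x.sort = (Φ i).1 ∧ ∀ θ ∈ (Φ i).2, ∃ r ∈ x.cls, θ.Realize r}

/-- The bijection `e : X → Y` between a subset of `M^eq` and a subset of `N^eq` is elementary. -/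
def ElemEq {M N : Type} [L.Structure M] [L.Structure N] {X : Set (Imag L M)} {Y : Set (Imag L N)}
    (e : X ≃ Y) : Prop :=
  (∀ x, (e x).1.sort = x.1.sort) ∧
    ∀ θ : L.Formula (X × ℕ), RealizeEq θ (fun x => x.1) ↔ RealizeEq θ (fun x => (e x).1)

/-- The type over `X` of the finite tuple `a` of `N^eq`, where `X` (a subset of `M^eq`) is
identified with a subset of `N^eq` through the bijection `e`: the sorts of the elements of `a`
together with the set of formulas realised at `a`. -/
def tpEq {M N : Type} [L.Structure M] [L.Structure N] {X : Set (Imag L M)} {Y : Set (Imag L N)}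
    (e : X ≃ Y) {k : ℕ} (a : Fin k → Imag L N) :
    (Fin k → L.Formula (ℕ ⊕ ℕ)) × Set (L.Formula ((Fin k ⊕ X) × ℕ)) :=
  (fun i => (a i).sort, {θ | RealizeEq θ (Sum.elim a (fun x => (e x).1))})

/-- `p` is a good `k`-type over `Q = Φ(M)`: it is the type over `Q` of a `k`-tuple of elements of
`N^eq` for a countable model `N` of `T` with `Φ(N) = Q`, the last equality meaning that `Q` is
identified with `Φ(N)` through an elementary bijection. -/
def IsGoodEq {T : L.Theory} (Φ : ℕ → L.Formula (ℕ ⊕ ℕ) × Set (L.Formula ℕ)) (M : CModel T)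
    (k : ℕ) (p : (Fin k → L.Formula (ℕ ⊕ ℕ)) × Set (L.Formula ((Fin k ⊕ solEq Φ M) × ℕ))) :
    Prop :=
  ∃ (N : CModel T) (e : solEq Φ M ≃ solEq Φ N) (a : Fin k → Imag L N), ElemEq e ∧ p = tpEq e a

/-- renaming of the variables of a formula about representatives -/
def relabelEq {α β : Type} (g : α → β) (θ : L.Formula (α × ℕ)) : L.Formula (β × ℕ) :=
  θ.relabel (Prod.map g id)

theorem realizeEq_relabel {M : Type} [L.Structure M] {α β : Type} {g : α → β}
    (hg : Function.Injective g) (θ : L.Formula (α × ℕ)) (v : β → Imag L M) :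
    RealizeEq (relabelEq g θ) v ↔ RealizeEq θ (v ∘ g) := by
  unfold RealizeEq relabelEq
  simp only [Formula.realize_relabel]
  constructor
  · rintro ⟨r, h1, h2⟩
    exact ⟨fun a => r (g a), fun a => h1 _, h2⟩
  · rintro ⟨r, h1, h2⟩
    classical
    have hne : ∀ b, ∃ s, s ∈ (v b).cls := by
      intro b
      obtain ⟨s, hs⟩ := (v b).cls_eq
      exact ⟨s, by rw [hs]; exact (v b).equiv.refl s⟩
    choose s hs using hne
    refine ⟨fun b => if h : ∃ a, g a = b then r h.choose else s b, fun b => ?_, ?_⟩
    · by_cases h : ∃ a, g a = b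
      · simp only [dif_pos h]
        have := h1 h.choose
        simp only [Function.comp_apply, h.choose_spec] at this
        exact this
      · simp only [dif_neg h]
        exact hs b
    · convert h2 using 1
      funext x
      have h : ∃ a, g a = g x.1 := ⟨x.1, rfl⟩
      have e1 : h.choose = x.1 := hg h.choose_spec
      simp only [Function.comp_apply, Prod.map_fst, Prod.map_snd, id_eq, dif_pos h, e1]

theorem ElemEq.refl {M : Type} [L.Structure M] (X : Set (Imag L M)) :
    ElemEq (Equiv.refl X) := ⟨fun _ => rfl, fun _ => Iff.rfl⟩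

theorem ElemEq.symm {M N : Type} [L.Structure M] [L.Structure N] {X : Set (Imag L M)}
    {Y : Set (Imag L N)} {e : X ≃ Y} (h : ElemEq e) : ElemEq e.symm := by
  refine ⟨fun y => ?_, fun θ => ?_⟩
  · have := h.1 (e.symm y)
    rw [Equiv.apply_symm_apply] at this
    exact this.symm
  · have := h.2 (relabelEq e.symm θ)
    rw [realizeEq_relabel e.symm.injective, realizeEq_relabel e.symm.injective] at this
    have h1 : (fun x => ((e x : Y) : Imag L N)) ∘ e.symm = fun y : Y => (y : Imag L N) := by
      funext y; simp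
    rw [h1] at this
    exact this.symm

theorem ElemEq.trans {M N K : Type} [L.Structure M] [L.Structure N] [L.Structure K]
    {X : Set (Imag L M)} {Y : Set (Imag L N)} {Z : Set (Imag L K)}
    {e : X ≃ Y} {f : Y ≃ Z} (h : ElemEq e) (h' : ElemEq f) : ElemEq (e.trans f) := by
  refine ⟨fun x => (h'.1 (e x)).trans (h.1 x), fun θ => ?_⟩
  have h2 := h'.2 (relabelEq e θ)
  rw [realizeEq_relabel e.injective, realizeEq_relabel e.injective] at h2
  exact (h.2 θ).trans h2

theorem sumMap_inj {k : ℕ} {X : Type} (σ : Equiv.Perm X) :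
    Function.Injective (Sum.map id σ : Fin k ⊕ X → Fin k ⊕ X) :=
  Sum.map_injective.2 ⟨Function.injective_id, σ.injective⟩

/-- The relation `p ∼ q`: some elementary permutation of `Q` carries `p` to `q`. -/
def pseudoSetoidEq {T : L.Theory} (Φ : ℕ → L.Formula (ℕ ⊕ ℕ) × Set (L.Formula ℕ)) (M : CModel T)
    (k : ℕ) :
    Setoid {p : (Fin k → L.Formula (ℕ ⊕ ℕ)) × Set (L.Formula ((Fin k ⊕ solEq Φ M) × ℕ)) //
      IsGoodEq Φ M k p} where
  r p q := ∃ σ : Equiv.Perm (solEq Φ M), ElemEq σ ∧ p.1.1 = q.1.1 ∧
    ∀ θ : L.Formula ((Fin k ⊕ solEq Φ M) × ℕ), θ ∈ p.1.2 ↔ relabelEq (Sum.map id σ) θ ∈ q.1.2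
  iseqv :=
    { refl := fun p => ⟨Equiv.refl _, ElemEq.refl _, rfl, fun θ => by
        obtain ⟨N, e, a, -, hp⟩ := p.2
        rw [hp]
        change RealizeEq _ _ ↔ RealizeEq _ _
        rw [realizeEq_relabel (sumMap_inj _), Equiv.coe_refl, Sum.map_id_id, Function.comp_id]⟩
      symm := fun {p q} ⟨σ, h1, h2, h3⟩ => ⟨σ.symm, ElemEq.symm h1, h2.symm, fun θ => by
        obtain ⟨N, e, a, -, hq⟩ := q.2
        rw [h3, hq]
        change RealizeEq _ _ ↔ RealizeEq _ _
        rw [realizeEq_relabel (sumMap_inj _), realizeEq_relabel (sumMap_inj _),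
          Function.comp_assoc, Sum.map_comp_map, Equiv.self_comp_symm, Function.id_comp,
          Sum.map_id_id, Function.comp_id]⟩
      trans := fun {p q r} ⟨σ, h1, h2, h2'⟩ ⟨τ, h3, h4, h4'⟩ =>
        ⟨σ.trans τ, ElemEq.trans h1 h3, h2.trans h4, fun θ => by
        obtain ⟨N, e, a, -, hr⟩ := r.2
        rw [h2', h4', hr]
        change RealizeEq _ _ ↔ RealizeEq _ _
        rw [realizeEq_relabel (sumMap_inj _), realizeEq_relabel (sumMap_inj _),
          realizeEq_relabel (sumMap_inj _), Function.comp_assoc, Sum.map_comp_map,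
          Function.id_comp]
        rfl⟩ }

/-- The set of good `Q`-pseudotypes, `Q = Φ(M)`: classes of good types of finite tuples. -/
def GoodPseudotypeEq {T : L.Theory} (Φ : ℕ → L.Formula (ℕ ⊕ ℕ) × Set (L.Formula ℕ))
    (M : CModel T) : Type :=
  Σ k, Quotient (pseudoSetoidEq Φ M k)

/-- The assertion of Q1: for a complete theory `T` with few countable models, every countable
disjunction `Φ` of partial types over `∅` (in sorts of `T^eq`) and every countable model `M` of
`T` there are only countably many good `Φ(M)`-pseudotypes. -/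
def Q1 : Prop :=
  ∀ (L : FirstOrder.Language.{0, 0}) [Countable L.Symbols] (T : L.Theory), T.IsComplete →
    numModels T < 𝔠 → ∀ (Φ : ℕ → L.Formula (ℕ ⊕ ℕ) × Set (L.Formula ℕ)) (M : CModel T),
      Countable (GoodPseudotypeEq Φ M)

end Pool.Agent.Helper85.VC
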