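import Pool.Agent.Helper85.VC.EqDefs

/-! # Vaught's conjecture implies the assertion of Q1 in `T^eq` -/

namespace Pool.Agent.Helper85.VC

open FirstOrder Language Cardinal

variable {L : FirstOrder.Language.{0, 0}}

theorem Imag.ext' {M : Type} [L.Structure M] {x y : Imag L M} (h1 : x.sort = y.sort)
    (h2 : x.cls = y.cls) : x = y := by
  cases x; cases y
  cases h1
  cases h2
  rfl

theorem realize_symm {M N : Type} [L.Structure M] [L.Structure N] (h : M ≃[L] N) {α : Type}
    (φ : L.Formula α) (v : α → N) : φ.Realize (h.symm ∘ v) ↔ φ.Realize v :=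
  StrongHomClass.realize_formula h.symm φ

theorem symm_comp_sum {M N : Type} [L.Structure M] [L.Structure N] (h : M ≃[L] N)
    (r s : ℕ → N) : Sum.elim (h.symm ∘ r) (h.symm ∘ s) = h.symm ∘ Sum.elim r s := by
  funext x
  rcases x with x | x <;> rfl

/-- action of an isomorphism on imaginary elements -/
def Imag.map {M N : Type} [L.Structure M] [L.Structure N] (h : M ≃[L] N) (x : Imag L M) :
    Imag L N where
  sort := x.sort
  equiv := by
    have key : ∀ r s : ℕ → N, x.sort.Realize (Sum.elim r s) ↔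
        x.sort.Realize (Sum.elim (h.symm ∘ r) (h.symm ∘ s)) := by
      intro r s
      rw [symm_comp_sum, realize_symm]
    refine ⟨fun r => (key _ _).2 (x.equiv.refl _), fun {r s} hrs => (key _ _).2
      (x.equiv.symm ((key _ _).1 hrs)), fun {r s t} h1 h2 => (key _ _).2
      (x.equiv.trans ((key _ _).1 h1) ((key _ _).1 h2))⟩
  cls := {s | h.symm ∘ s ∈ x.cls}
  cls_eq := by
    obtain ⟨r, hr⟩ := x.cls_eq
    refine ⟨h ∘ r, ?_⟩
    ext s
    have e1 : h.symm ∘ h ∘ r = r := by
      funext i
      simp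
    change h.symm ∘ s ∈ x.cls ↔ x.sort.Realize (Sum.elim (h ∘ r) s)
    rw [hr, ← realize_symm h, ← symm_comp_sum, e1]
    exact Iff.rfl

/-- action of an isomorphism on imaginary elements, as a bijection -/
def Imag.mapEquiv {M N : Type} [L.Structure M] [L.Structure N] (h : M ≃[L] N) :
    Imag L M ≃ Imag L N where
  toFun := Imag.map h
  invFun := Imag.map h.symm
  left_inv x := by
    apply Imag.ext'
    · rfl
    · ext s
      change h.symm ∘ h.symm.symm ∘ s ∈ x.cls ↔ _
      have : h.symm ∘ h.symm.symm ∘ s = s := by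
        funext i
        simp
      rw [this]
  right_inv x := by
    apply Imag.ext'
    · rfl
    · ext s
      change h.symm.symm ∘ h.symm ∘ s ∈ x.cls ↔ _
      have : h.symm.symm ∘ h.symm ∘ s = s := by
        funext i
        simp
      rw [this]

theorem realizeEq_map {M N : Type} [L.Structure M] [L.Structure N] (h : M ≃[L] N) {α : Type}
    (θ : L.Formula (α × ℕ)) (v : α → Imag L M) :
    RealizeEq θ (fun a => Imag.mapEquiv h (v a)) ↔ RealizeEq θ v := by
  constructor
  · rintro ⟨r, h1, h2⟩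
    refine ⟨fun a => h.symm ∘ r a, h1, ?_⟩
    rw [← realize_symm h] at h2
    exact h2
  · rintro ⟨r, h1, h2⟩
    refine ⟨fun a => h ∘ r a, fun a => ?_, ?_⟩
    · change h.symm ∘ h ∘ r a ∈ (v a).cls
      have : h.symm ∘ h ∘ r a = r a := by
        funext i
        simp
      rw [this]
      exact h1 a
    · rw [← StrongHomClass.realize_formula h] at h2
      exact h2

theorem mem_solEq_iff {Φ : ℕ → L.Formula (ℕ ⊕ ℕ) × Set (L.Formula ℕ)} {M N : Type}
    [L.Structure M] [L.Structure N] (h : M ≃[L] N) (x : Imag L M) :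
    x ∈ solEq Φ M ↔ Imag.mapEquiv h x ∈ solEq Φ N := by
  unfold solEq
  refine exists_congr fun i => and_congr Iff.rfl (forall_congr' fun θ => imp_congr_right fun _ => ?_)
  constructor
  · rintro ⟨r, h1, h2⟩
    refine ⟨h ∘ r, ?_, ?_⟩
    · change h.symm ∘ h ∘ r ∈ x.cls
      have : h.symm ∘ h ∘ r = r := by
        funext i
        simp
      rw [this]
      exact h1
    · exact (StrongHomClass.realize_formula h θ).2 h2
  · rintro ⟨r, h1, h2⟩
    exact ⟨h.symm ∘ r, h1, (realize_symm h θ r).2 h2⟩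

/-- an isomorphism restricted to the solution sets -/
def solEqEquiv (Φ : ℕ → L.Formula (ℕ ⊕ ℕ) × Set (L.Formula ℕ)) {M N : Type} [L.Structure M]
    [L.Structure N] (h : M ≃[L] N) : solEq Φ M ≃ solEq Φ N :=
  (Imag.mapEquiv h).subtypeEquiv fun x => mem_solEq_iff h x

theorem solEqEquiv_elem (Φ : ℕ → L.Formula (ℕ ⊕ ℕ) × Set (L.Formula ℕ)) {M N : Type}
    [L.Structure M] [L.Structure N] (h : M ≃[L] N) : ElemEq (solEqEquiv Φ h) :=
  ⟨fun _ => rfl, fun θ => (realizeEq_map h θ (fun x : solEq Φ M => x.1)).symm⟩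

theorem realize_congr_free {M : Type} [L.Structure M] {α : Type} [DecidableEq α]
    (φ : L.Formula α) (v w : α → M) (h : ∀ a ∈ φ.freeVarFinset, v a = w a) :
    φ.Realize v ↔ φ.Realize w := by
  have h1 : (φ.restrictFreeVar id).Realize (fun x => v x.1) (default : Fin 0 → M) ↔ φ.Realize v :=
    BoundedFormula.realize_restrictFreeVar (f := id) (v := fun x => v x.1) v (fun a => rfl)
  have h2 : (φ.restrictFreeVar id).Realize (fun x => w x.1) (default : Fin 0 → M) ↔ φ.Realize w :=
    BoundedFormula.realize_restrictFreeVar (f := id) (v := fun x => w x.1) w (fun a => rfl)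
  have h3 : (fun x : φ.freeVarFinset => v x.1) = fun x => w x.1 := funext fun x => h x.1 x.2
  rw [← h1, ← h2, h3]

theorem exists_list {M : Type} [L.Structure M] (m0 : M) (E : L.Formula (ℕ ⊕ ℕ)) (r : ℕ → M) :
    ∃ l : List M, {s | E.Realize (Sum.elim r s)} =
      {s | E.Realize (Sum.elim (fun i => l.getD i m0) s)} := by
  classical
  let n := (E.freeVarFinset.image (fun x : ℕ ⊕ ℕ => Sum.elim id (fun _ => 0) x)).sup id + 1
  refine ⟨(List.range n).map r, ?_⟩
  ext s
  refine realize_congr_free E _ _ fun a ha => ?_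
  rcases a with i | i
  · have h1 : i ∈ E.freeVarFinset.image (fun x : ℕ ⊕ ℕ => Sum.elim id (fun _ => 0) x) :=
      Finset.mem_image.2 ⟨_, ha, rfl⟩
    have h2 : i ≤ _ := Finset.le_sup (f := id) h1
    have h3 : i < n := Nat.lt_succ_of_le h2
    simp [List.getD_eq_getElem?_getD, h3]
  · rfl

instance (M : Type) [L.Structure M] [Nonempty M] [Countable M] [Countable L.Symbols] :
    Countable (Imag L M) := by
  let m0 : M := Classical.arbitrary M
  have key : ∀ x : Imag L M, ∃ l : List M, x.cls =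
      {s | x.sort.Realize (Sum.elim (fun i => l.getD i m0) s)} := by
    intro x
    obtain ⟨r, hr⟩ := x.cls_eq
    obtain ⟨l, hl⟩ := exists_list m0 x.sort r
    exact ⟨l, hr.trans hl⟩
  choose l hl using key
  refine Function.Injective.countable (f := fun x : Imag L M => (x.sort, l x)) ?_
  intro x y hxy
  have h1 : x.sort = y.sort := congrArg Prod.fst hxy
  have h2 : l x = l y := congrArg Prod.snd hxy
  refine Imag.ext' h1 ?_
  rw [hl x, hl y, h1, h2]

theorem q1_of_vc (hVC : VaughtConjecture) : Q1 := by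
  intro L _ T hT hfew Φ M
  have hc : #(Quotient (isoSetoid T)) ≤ ℵ₀ := hVC L T hT hfew
  have : Countable (Quotient (isoSetoid T)) := Cardinal.mk_le_aleph0_iff.mp hc
  let I := {c : Quotient (isoSetoid T) // ∃ e : solEq Φ M ≃ solEq Φ c.out, ElemEq e}
  choose e he using fun c : I => c.2
  let F : (Σ c : I, Σ k : ℕ, (Fin k → Imag L c.1.out)) → GoodPseudotypeEq Φ M := fun x =>
    ⟨x.2.1, Quotient.mk _ ⟨tpEq (e x.1) x.2.2, ⟨x.1.1.out, e x.1, x.2.2, he x.1, rfl⟩⟩⟩
  have : ∀ c : I, Countable (Σ k : ℕ, (Fin k → Imag L c.1.out)) := fun c => inferInstance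
  refine Function.Surjective.countable (f := F) ?_
  rintro ⟨k, p⟩
  obtain ⟨⟨p, N, e', a, he', hp⟩, rfl⟩ := Quotient.exists_rep p
  obtain ⟨h⟩ : Nonempty (N ≃[L] (Quotient.mk (isoSetoid T) N).out) :=
    (isoSetoid T).symm (Quotient.mk_out (s := isoSetoid T) N)
  have h2 : ElemEq (e'.trans (solEqEquiv Φ h)) := he'.trans (solEqEquiv_elem Φ h)
  let c : I := ⟨Quotient.mk (isoSetoid T) N, ⟨_, h2⟩⟩
  refine ⟨⟨c, k, fun i => Imag.mapEquiv h (a i)⟩, ?_⟩
  have key : (pseudoSetoidEq Φ M k).r ⟨tpEq (e c) (fun i => Imag.mapEquiv h (a i)),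
      ⟨c.1.out, e c, fun i => Imag.mapEquiv h (a i), he c, rfl⟩⟩ ⟨p, N, e', a, he', hp⟩ := by
    refine (pseudoSetoidEq Φ M k).symm ⟨(e'.trans (solEqEquiv Φ h)).trans (e c).symm,
      h2.trans (he c).symm, ?_, fun θ => ?_⟩
    · simp only [hp]
      rfl
    · simp only [hp]
      change RealizeEq _ _ ↔ RealizeEq _ _
      rw [realizeEq_relabel (sumMap_inj _), ← realizeEq_map h]
      have : (Sum.elim (fun i => Imag.mapEquiv h (a i)) fun x =>
          ((e c x : solEq Φ c.1.out) : Imag L c.1.out)) ∘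
          (Sum.map id ((e'.trans (solEqEquiv Φ h)).trans (e c).symm)) =
          fun b => Imag.mapEquiv h (Sum.elim a (fun x => ((e' x : solEq Φ N) : Imag L N)) b) := by
        funext x
        rcases x with i | x
        · rfl
        · simp only [Function.comp_apply, Sum.map_inr, Equiv.trans_apply, Sum.elim_inr,
            Equiv.apply_symm_apply]
          rfl
      rw [this]
  exact congrArg (Sigma.mk k) (Quotient.sound key)

end Pool.Agent.Helper85.VC
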