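import Pool.Agent.Helper85.VC.EqDefs

/-! # The assertion of Q1 in `T^eq` implies the one for the home sort -/

namespace Pool.Agent.Helper85.VC

open FirstOrder Language Cardinal

variable {L : FirstOrder.Language.{0, 0}}

/-- the formula `x₀ = y₀` -/
def E0 (L : FirstOrder.Language.{0, 0}) : L.Formula (ℕ ⊕ ℕ) :=
  (Term.var (Sum.inl 0)).equal (Term.var (Sum.inr 0))

theorem realize_E0 {M : Type} [L.Structure M] (r s : ℕ → M) :
    (E0 L).Realize (Sum.elim r s) ↔ r 0 = s 0 := by
  unfold E0
  rw [Formula.realize_equal]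
  exact Iff.rfl

/-- elements of `M` as elements of `M^eq` -/
def homeImag (L : FirstOrder.Language.{0, 0}) {M : Type} [L.Structure M] (a : M) : Imag L M where
  sort := E0 L
  equiv := by
    simp only [realize_E0]
    exact ⟨fun _ => rfl, fun h => h.symm, fun h h' => h.trans h'⟩
  cls := {r | r 0 = a}
  cls_eq := by
    refine ⟨fun _ => a, ?_⟩
    ext s
    change s 0 = a ↔ (E0 L).Realize _
    rw [realize_E0]
    exact eq_comm

theorem homeImag_inj {M : Type} [L.Structure M] {a b : M} (h : homeImag L a = homeImag L b) :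
    a = b := by
  have h1 : (homeImag L a).cls = (homeImag L b).cls := by rw [h]
  have h2 : (fun _ => a : ℕ → M) ∈ (homeImag L a).cls := rfl
  rw [h1] at h2
  exact h2

theorem exists_homeImag {M : Type} [L.Structure M] {x : Imag L M} (h : x.sort = E0 L) :
    ∃ a, x = homeImag L a := by
  obtain ⟨r, hr⟩ := x.cls_eq
  refine ⟨r 0, ?_⟩
  cases x with
  | mk sort equiv cls cls_eq =>
    cases h
    dsimp only at hr
    unfold homeImag
    congr 1
    rw [hr]
    ext s
    exact eq_comm

/-- `Φ` as a disjunction of partial types about elements of `M^eq` -/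
def phiEq (Φ : ℕ → Set (L.Formula (Fin 1))) : ℕ → L.Formula (ℕ ⊕ ℕ) × Set (L.Formula ℕ) :=
  fun i => (E0 L, {θ | ∃ φ ∈ Φ i, θ = φ.relabel (fun _ => 0)})

theorem homeImag_mem {Φ : ℕ → Set (L.Formula (Fin 1))} {M : Type} [L.Structure M] (a : M) :
    homeImag L a ∈ solEq (phiEq Φ) M ↔ a ∈ sol Φ M := by
  constructor
  · rintro ⟨i, -, h⟩
    refine ⟨i, fun φ hφ => ?_⟩
    obtain ⟨r, hr, h2⟩ := h _ ⟨φ, hφ, rfl⟩
    rw [Formula.realize_relabel] at h2
    have h3 : r 0 = a := hr
    have : r ∘ (fun _ : Fin 1 => 0) = fun _ => a := by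
      funext j
      exact h3
    rwa [this] at h2
  · rintro ⟨i, h⟩
    refine ⟨i, rfl, ?_⟩
    rintro _ ⟨φ, hφ, rfl⟩
    refine ⟨fun _ => a, rfl, ?_⟩
    rw [Formula.realize_relabel]
    exact h φ hφ

/-- the bijection between the solution sets in the home sort and in `M^eq` -/
noncomputable def iot (Φ : ℕ → Set (L.Formula (Fin 1))) (M : Type) [L.Structure M] :
    sol Φ M ≃ solEq (phiEq Φ) M :=
  Equiv.ofBijective (fun a => ⟨homeImag L a.1, (homeImag_mem a.1).2 a.2⟩) (by
    constructor
    · intro a b h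
      exact Subtype.ext (homeImag_inj (congrArg Subtype.val h))
    · rintro ⟨x, hx⟩
      obtain ⟨i, h1, h2⟩ := hx
      obtain ⟨a, ha⟩ := exists_homeImag h1
      subst ha
      exact ⟨⟨a, (homeImag_mem a).1 ⟨i, h1, h2⟩⟩, rfl⟩)

theorem iot_coe (Φ : ℕ → Set (L.Formula (Fin 1))) (M : Type) [L.Structure M] (a : sol Φ M) :
    (iot Φ M a).1 = homeImag L a.1 := rfl

theorem coe_eq_symm (Φ : ℕ → Set (L.Formula (Fin 1))) (M : Type) [L.Structure M]
    (x : solEq (phiEq Φ) M) : x.1 = homeImag L ((iot Φ M).symm x).1 := by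
  rw [← iot_coe, Equiv.apply_symm_apply]

theorem exists_home_formula {α : Type} (θ : L.Formula (α × ℕ)) :
    ∃ θ' : L.Formula α, ∀ (M : Type) [L.Structure M] [Nonempty M] (v : α → M),
      RealizeEq θ (fun a => homeImag L (v a)) ↔ θ'.Realize v := by
  classical
  let f : θ.freeVarFinset → α ⊕ θ.freeVarFinset := fun s =>
    if s.1.2 = 0 then Sum.inl s.1.1 else Sum.inr s
  let θ1 : L.Formula (α ⊕ θ.freeVarFinset) := θ.restrictFreeVar f
  refine ⟨θ1.iExs θ.freeVarFinset, fun M _ _ v => ?_⟩
  rw [Formula.realize_iExs]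
  constructor
  · rintro ⟨r, h1, h2⟩
    refine ⟨fun s => r s.1.1 s.1.2, ?_⟩
    refine (BoundedFormula.realize_restrictFreeVar (fun p : α × ℕ => r p.1 p.2) ?_).2 h2
    rintro ⟨⟨a, j⟩, hs⟩
    by_cases hj : j = 0
    · subst hj
      have h3 : r a 0 = v a := h1 a
      simp [f, h3]
    · simp [f, hj]
  · rintro ⟨i, hi⟩
    let v' : α × ℕ → M := fun p => if p.2 = 0 then v p.1 else
      if h : p ∈ θ.freeVarFinset then i ⟨p, h⟩ else Classical.arbitrary M
    refine ⟨fun a j => v' (a, j), fun a => ?_, ?_⟩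
    · change v' (a, 0) = v a
      simp [v']
    · refine (BoundedFormula.realize_restrictFreeVar v' ?_).1 hi
      rintro ⟨⟨a, j⟩, hs⟩
      by_cases hj : j = 0
      · subst hj
        simp [f, v']
      · simp [f, v', hj, hs]

/-- a formula about elements of `M` as a formula about elements of `M^eq` -/
def liftEq {α : Type} (ψ : L.Formula α) : L.Formula (α × ℕ) := ψ.relabel (fun a => (a, 0))

theorem realizeEq_lift {α : Type} (ψ : L.Formula α) {M : Type} [L.Structure M] (v : α → M) :
    RealizeEq (liftEq ψ) (fun a => homeImag L (v a)) ↔ ψ.Realize v := by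
  unfold liftEq
  constructor
  · rintro ⟨r, h1, h2⟩
    rw [Formula.realize_relabel] at h2
    have : (fun x : α × ℕ => r x.1 x.2) ∘ (fun a => (a, 0)) = v := by
      funext a
      exact h1 a
    rwa [this] at h2
  · intro h
    refine ⟨fun a _ => v a, fun a => rfl, ?_⟩
    rw [Formula.realize_relabel]
    exact h

theorem elemEq_of_elem {Φ : ℕ → Set (L.Formula (Fin 1))} {M N : Type} [L.Structure M]
    [L.Structure N] [Nonempty M] [Nonempty N] {e : sol Φ M ≃ sol Φ N} (he : Elem L e) :
    ElemEq ((iot Φ M).symm.trans (e.trans (iot Φ N))) := by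
  constructor
  · intro x
    rw [coe_eq_symm Φ M x]
    rfl
  · intro θ
    obtain ⟨θ', hθ'⟩ := exists_home_formula θ
    have h1 : (fun x : solEq (phiEq Φ) M => x.1) =
        fun x => homeImag L (((iot Φ M).symm x).1) := funext fun x => coe_eq_symm Φ M x
    have h2 : (fun x : solEq (phiEq Φ) M =>
        (((iot Φ M).symm.trans (e.trans (iot Φ N))) x).1) =
        fun x => homeImag L ((e ((iot Φ M).symm x)).1) := rfl
    rw [h1, h2, hθ', hθ']
    have h3 := he (θ'.relabel (iot Φ M).symm)
    rw [Formula.realize_relabel, Formula.realize_relabel] at h3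
    exact h3

theorem elem_of_elemEq {Φ : ℕ → Set (L.Formula (Fin 1))} {M N : Type} [L.Structure M]
    [L.Structure N] {e : solEq (phiEq Φ) M ≃ solEq (phiEq Φ) N} (he : ElemEq e) :
    Elem L ((iot Φ M).trans (e.trans (iot Φ N).symm)) := by
  intro φ
  have h1 := he.2 (relabelEq (iot Φ M) (liftEq φ))
  rw [realizeEq_relabel (iot Φ M).injective, realizeEq_relabel (iot Φ M).injective] at h1
  have h2 : (fun x : solEq (phiEq Φ) M => x.1) ∘ (iot Φ M) = fun a => homeImag L a.1 := rfl
  have h3 : (fun x : solEq (phiEq Φ) M => (e x).1) ∘ (iot Φ M) =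
      fun a => homeImag L (((iot Φ M).trans (e.trans (iot Φ N).symm)) a).1 := by
    funext a
    exact coe_eq_symm Φ N _
  rw [h2, h3, realizeEq_lift, realizeEq_lift] at h1
  exact h1

theorem countable_home {T : L.Theory} (Φ : ℕ → Set (L.Formula (Fin 1))) (M : CModel T) (k : ℕ)
    (h : Countable (Quotient (pseudoSetoidEq (phiEq Φ) M k))) :
    Countable (Quotient (pseudoSetoid Φ M k)) := by
  choose N e a he hp using fun c : Quotient (pseudoSetoid Φ M k) => c.out.2
  let e' : ∀ c, solEq (phiEq Φ) M ≃ solEq (phiEq Φ) (N c) := fun c =>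
    (iot Φ M).symm.trans ((e c).trans (iot Φ (N c)))
  let a' : ∀ c, Fin k → Imag L (N c) := fun c i => homeImag L (a c i)
  let G : Quotient (pseudoSetoid Φ M k) → Quotient (pseudoSetoidEq (phiEq Φ) M k) := fun c =>
    Quotient.mk _ ⟨tpEq (e' c) (a' c), ⟨N c, e' c, a' c, elemEq_of_elem (he c), rfl⟩⟩
  refine Function.Injective.countable (f := G) ?_
  intro c d hcd
  obtain ⟨σ', h1, -, h3⟩ := Quotient.exact hcd
  refine Quotient.out_equiv_out.1 ⟨(iot Φ M).trans (σ'.trans (iot Φ M).symm),
    elem_of_elemEq h1, fun φ => ?_⟩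
  have h4 := h3 (relabelEq (Sum.map id (iot Φ M)) (liftEq φ))
  have hinj : Function.Injective (Sum.map id (iot Φ M) : Fin k ⊕ sol Φ M → _) :=
    Sum.map_injective.2 ⟨Function.injective_id, (iot Φ M).injective⟩
  change RealizeEq _ _ ↔ RealizeEq _ _ at h4
  rw [realizeEq_relabel (sumMap_inj _), realizeEq_relabel hinj, realizeEq_relabel hinj] at h4
  have h5 : Sum.elim (a' c) (fun x => (e' c x).1) ∘ Sum.map id (iot Φ M) =
      fun b => homeImag L (Sum.elim (a c) (fun x => ((e c x : sol Φ (N c)) : N c)) b) := by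
    funext b
    rcases b with i | x
    · rfl
    · change (e' c (iot Φ M x)).1 = _
      simp only [e', Equiv.trans_apply, Equiv.symm_apply_apply]
      rfl
  have h6 : (Sum.elim (a' d) (fun x => (e' d x).1) ∘ Sum.map id σ') ∘ Sum.map id (iot Φ M) =
      fun b => homeImag L ((Sum.elim (a d) (fun x => ((e d x : sol Φ (N d)) : N d)) ∘
        Sum.map id ((iot Φ M).trans (σ'.trans (iot Φ M).symm))) b) := by
    funext b
    rcases b with i | x
    · rfl
    · rfl
  rw [h5, h6, realizeEq_lift, realizeEq_lift] at h4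
  rw [hp c, hp d, mem_tp_relabel, mem_tp]
  exact h4

theorem q1Home_of_q1 (h : Q1) : Q1Home := by
  intro L _ T hT hfew Φ M
  have h1 := h L T hT hfew (phiEq Φ) M
  have h2 : ∀ k, Countable (Quotient (pseudoSetoid Φ M k)) := by
    intro k
    apply countable_home
    refine Function.Injective.countable (β := GoodPseudotypeEq (phiEq Φ) M)
      (f := fun c => ⟨k, c⟩) ?_
    intro c d hcd
    exact eq_of_heq (Sigma.mk.inj hcd).2
  unfold GoodPseudotype
  infer_instance

end Pool.Agent.Helper85.VC
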