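import Pool.Agent.Helper85.VC.Pt
import Pool.Agent.Helper85.VC.Defs

/-! # Normal form of the models -/

namespace Pool.Agent.Helper85.VC

open FirstOrder FirstOrder.Language FirstOrder.Language.Structure Cardinal

variable {L : FirstOrder.Language.{0, 0}} {A B M : Type}

/-- The (first-order) conditions that characterise the structures `Pt f`, `f` generic. -/
structure Good (L : FirstOrder.Language.{0, 0}) (N : Type) [(LL L).Structure N] : Prop where
  total : ∀ x : N, isM L x ∨ isP L x ∨ isQ L x ∨ x = infty L N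
  mp : ∀ x : N, isM L x → ¬ isP L x
  mq : ∀ x : N, isM L x → ¬ isQ L x
  pq : ∀ x : N, isP L x → ¬ isQ L x
  infm : ¬ isM L (infty L N)
  infp : ¬ isP L (infty L N)
  infq : ¬ isQ L (infty L N)
  F_mem : ∀ x y : N, isP L x → isQ L y → isM L (FF L x y)
  F_junk : ∀ x y : N, ¬ (isP L x ∧ isQ L y) → FF L x y = infty L N
  fun_mem : ∀ (n : ℕ) (g : L.Functions n) (xs : Fin n → N), (∀ i, isM L (xs i)) →
    isM L (gg L g xs)
  fun_junk : ∀ (n : ℕ) (g : L.Functions n) (xs : Fin n → N) (i : Fin n), ¬ isM L (xs i) →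
    gg L g xs = infty L N
  rel_mem : ∀ (n : ℕ) (R : L.Relations n) (xs : Fin n → N) (i : Fin n), rr L R xs →
    isM L (xs i)
  left : ∀ (I J : Type) [Finite I] [Finite J] (ps : I → N) (qs zs : J → N),
    Function.Injective qs → (∀ j, isQ L (qs j)) → (∀ j, isM L (zs j)) →
    ∃ p : N, isP L p ∧ (∀ i, p ≠ ps i) ∧ ∀ j, FF L p (qs j) = zs j
  right : ∀ (I J : Type) [Finite I] [Finite J] (qs : I → N) (ps zs : J → N),
    Function.Injective ps → (∀ j, isP L (ps j)) → (∀ j, isM L (zs j)) →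
    ∃ q : N, isQ L q ∧ (∀ i, q ≠ qs i) ∧ ∀ j, FF L (ps j) q = zs j
  ne : ∃ x : N, isM L x

section normalForm

variable {N : Type} [(LL L).Structure N]

/-- the sort `M` of a good structure, as an `L`-structure -/
def MS (_h : Good L N) : Type := {x : N // isM L x}
/-- the sort `P` -/
def PS (_h : Good L N) : Type := {x : N // isP L x}
/-- the sort `Q` -/
def QS (_h : Good L N) : Type := {x : N // isQ L x}

instance (h : Good L N) : L.Structure (MS h) where
  funMap g xs := ⟨gg L g (fun i => (xs i).1), h.fun_mem _ g _ fun i => (xs i).2⟩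
  RelMap R xs := rr L R (fun i => (xs i).1)

instance (h : Good L N) : Nonempty (MS h) := by
  obtain ⟨x, hx⟩ := h.ne
  exact ⟨⟨x, hx⟩⟩

instance (h : Good L N) [Countable N] : Countable (MS h) :=
  inferInstanceAs (Countable {x : N // isM L x})
instance (h : Good L N) [Countable N] : Countable (PS h) :=
  inferInstanceAs (Countable {x : N // isP L x})
instance (h : Good L N) [Countable N] : Countable (QS h) :=
  inferInstanceAs (Countable {x : N // isQ L x})

/-- the coded function -/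
def fN (h : Good L N) : PS h → QS h → MS h := fun a b => ⟨FF L a.1 b.1, h.F_mem _ _ a.2 b.2⟩

theorem gen_fN (h : Good L N) : Gen (fN h) := by
  constructor
  · intro S t v
    obtain ⟨p, hp, h1, h2⟩ := h.left S t (fun x => x.1.1) (fun y => y.1.1) (fun y => (v y.1).1)
      (fun x y hxy => Subtype.ext (Subtype.ext hxy)) (fun j => j.1.2) (fun j => (v j.1).2)
    refine ⟨⟨p, hp⟩, fun hm => h1 ⟨_, hm⟩ rfl, fun b hb => Subtype.ext (h2 ⟨b, hb⟩)⟩
  · intro S t v
    obtain ⟨p, hp, h1, h2⟩ := h.right S t (fun x => x.1.1) (fun y => y.1.1) (fun y => (v y.1).1)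
      (fun x y hxy => Subtype.ext (Subtype.ext hxy)) (fun j => j.1.2) (fun j => (v j.1).2)
    refine ⟨⟨p, hp⟩, fun hm => h1 ⟨_, hm⟩ rfl, fun b hb => Subtype.ext (h2 ⟨b, hb⟩)⟩

/-- the underlying map of the normal form isomorphism -/
def nfMap (h : Good L N) : Pt (fN h) → N
  | PtT.inf => infty L N
  | PtT.m x => x.1
  | PtT.p x => x.1
  | PtT.q x => x.1

theorem nfMap_bij (h : Good L N) : Function.Bijective (nfMap h) := by
  constructor
  · rintro (_ | x | x | x) (_ | y | y | y) hxy
    · rfl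
    · have hxy' : infty L N = y.1 := hxy
      exact absurd (hxy' ▸ y.2 : isM L (infty L N)) h.infm
    · have hxy' : infty L N = y.1 := hxy
      exact absurd (hxy' ▸ y.2 : isP L (infty L N)) h.infp
    · have hxy' : infty L N = y.1 := hxy
      exact absurd (hxy' ▸ y.2 : isQ L (infty L N)) h.infq
    · have hxy' : x.1 = infty L N := hxy
      exact absurd (hxy' ▸ x.2 : isM L (infty L N)) h.infm
    · exact congrArg (Pt.m (fN h)) (Subtype.ext hxy)
    · have hxy' : x.1 = y.1 := hxy
      exact absurd (hxy' ▸ y.2 : isP L x.1) (h.mp _ x.2)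
    · have hxy' : x.1 = y.1 := hxy
      exact absurd (hxy' ▸ y.2 : isQ L x.1) (h.mq _ x.2)
    · have hxy' : x.1 = infty L N := hxy
      exact absurd (hxy' ▸ x.2 : isP L (infty L N)) h.infp
    · have hxy' : x.1 = y.1 := hxy
      exact absurd (hxy' ▸ x.2 : isP L y.1) (h.mp _ y.2)
    · exact congrArg (Pt.p (fN h)) (Subtype.ext hxy)
    · have hxy' : x.1 = y.1 := hxy
      exact absurd (hxy' ▸ y.2 : isQ L x.1) (h.pq _ x.2)
    · have hxy' : x.1 = infty L N := hxy
      exact absurd (hxy' ▸ x.2 : isQ L (infty L N)) h.infq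
    · have hxy' : x.1 = y.1 := hxy
      exact absurd (hxy' ▸ x.2 : isQ L y.1) (h.mq _ y.2)
    · have hxy' : x.1 = y.1 := hxy
      exact absurd (hxy' ▸ x.2 : isQ L y.1) (h.pq _ y.2)
    · exact congrArg (Pt.q (fN h)) (Subtype.ext hxy)
  · intro x
    rcases h.total x with hx | hx | hx | hx
    · exact ⟨Pt.m _ ⟨x, hx⟩, rfl⟩
    · exact ⟨Pt.p _ ⟨x, hx⟩, rfl⟩
    · exact ⟨Pt.q _ ⟨x, hx⟩, rfl⟩
    · exact ⟨Pt.inf _, hx.symm⟩

theorem nf_isM (h : Good L N) (x : Pt (fN h)) : isM L (nfMap h x) ↔ isM L x := by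
  rw [pt_isM]
  rcases x with _ | x | x | x
  · exact iff_of_false h.infm (by rintro ⟨y, hy⟩; cases hy)
  · exact iff_of_true x.2 ⟨x, rfl⟩
  · exact iff_of_false (fun h' => h.mp _ h' x.2) (by rintro ⟨y, hy⟩; cases hy)
  · exact iff_of_false (fun h' => h.mq _ h' x.2) (by rintro ⟨y, hy⟩; cases hy)

theorem nf_isP (h : Good L N) (x : Pt (fN h)) : isP L (nfMap h x) ↔ isP L x := by
  rw [pt_isP]
  rcases x with _ | x | x | x
  · exact iff_of_false h.infp (by rintro ⟨y, hy⟩; cases hy)
  · exact iff_of_false (fun h' => h.mp _ x.2 h') (by rintro ⟨y, hy⟩; cases hy)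
  · exact iff_of_true x.2 ⟨x, rfl⟩
  · exact iff_of_false (fun h' => h.pq _ h' x.2) (by rintro ⟨y, hy⟩; cases hy)

theorem nf_isQ (h : Good L N) (x : Pt (fN h)) : isQ L (nfMap h x) ↔ isQ L x := by
  rw [pt_isQ]
  rcases x with _ | x | x | x
  · exact iff_of_false h.infq (by rintro ⟨y, hy⟩; cases hy)
  · exact iff_of_false (fun h' => h.mq _ x.2 h') (by rintro ⟨y, hy⟩; cases hy)
  · exact iff_of_false (fun h' => h.pq _ x.2 h') (by rintro ⟨y, hy⟩; cases hy)
  · exact iff_of_true x.2 ⟨x, rfl⟩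

theorem nf_F (h : Good L N) (x y : Pt (fN h)) : nfMap h (FF L x y) = FF L (nfMap h x) (nfMap h y) := by
  by_cases hx : isP L x
  · by_cases hy : isQ L y
    · obtain ⟨a, rfl⟩ := hx
      obtain ⟨b, rfl⟩ := hy
      rfl
    · have e1 : FF L x y = Pt.inf (fN h) := by
        rw [pt_FF]
        rcases x with _ | x | x | x <;> rcases y with _ | y | y | y <;> first | rfl | skip
        exact absurd ⟨y, rfl⟩ hy
      rw [e1, h.F_junk _ _ fun h' => hy ((nf_isQ h y).1 h'.2)]
      rfl
  · have e1 : FF L x y = Pt.inf (fN h) := by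
      rw [pt_FF]
      rcases x with _ | x | x | x <;> rcases y with _ | y | y | y <;> first | rfl | skip
      exact absurd ⟨x, rfl⟩ hx
    rw [e1, h.F_junk _ _ fun h' => hx ((nf_isP h x).1 h'.1)]
    rfl

theorem exists_m_of_forall {f : A → B → M} [L.Structure M] {n : ℕ} (xs : Fin n → Pt f)
    (h : ∀ i, isM L (xs i)) : ∃ ys : Fin n → M, xs = fun i => Pt.m f (ys i) := by
  choose ys hys using h
  exact ⟨ys, funext hys⟩

theorem nf_gg (h : Good L N) {n : ℕ} (g : L.Functions n) (xs : Fin n → Pt (fN h)) :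
    nfMap h (gg L g xs) = gg L g (fun i => nfMap h (xs i)) := by
  by_cases hx : ∀ i, isM L (xs i)
  · obtain ⟨ys, rfl⟩ := exists_m_of_forall xs hx
    rw [pt_gg_m]
    rfl
  · have h1 : ¬ ∃ ys : _ → MS h, xs = fun i => Pt.m (fN h) (ys i) := by
      rintro ⟨ys, rfl⟩
      exact hx fun i => ⟨ys i, rfl⟩
    rw [pt_gg_junk _ _ _ h1]
    push Not at hx
    obtain ⟨i, hi⟩ := hx
    rw [h.fun_junk n g _ i fun h' => hi ((nf_isM h _).1 h')]
    rfl

theorem nf_rr (h : Good L N) {n : ℕ} (R : L.Relations n) (xs : Fin n → Pt (fN h)) :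
    rr L R (fun i => nfMap h (xs i)) ↔ rr L R xs := by
  by_cases hx : ∀ i, isM L (xs i)
  · obtain ⟨ys, rfl⟩ := exists_m_of_forall xs hx
    rw [pt_rr_m]
    exact Iff.rfl
  · push Not at hx
    obtain ⟨i, hi⟩ := hx
    refine iff_of_false (fun h' => hi ((nf_isM h _).1 (h.rel_mem n R _ i h'))) ?_
    rw [pt_rr_iff]
    rintro ⟨ys, rfl, -⟩
    exact hi ⟨ys i, rfl⟩

theorem vec1 {X : Type} (x : Fin 1 → X) : x = ![x 0] := by
  funext i; fin_cases i; rfl

theorem vec2 {X : Type} (x : Fin 2 → X) : x = ![x 0, x 1] := by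
  funext i; fin_cases i <;> rfl

/-- Normal form of good structures. -/
noncomputable def nf (h : Good L N) : Pt (fN h) ≃[LL L] N where
  toEquiv := Equiv.ofBijective _ (nfMap_bij h)
  map_fun' := by
    intro n g x
    rcases g with g | g
    · exact nf_gg h g x
    · rcases g with _ | _
      · change infty L N = _
        unfold infty
        congr 1
        exact Subsingleton.elim _ _
      · rw [vec2 x]
        refine (nf_F h (x 0) (x 1)).trans ?_
        unfold FF
        congr 1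
        funext i
        fin_cases i <;> rfl
  map_rel' := by
    intro n R x
    rcases R with R | R
    · exact nf_rr h R x
    · have e : ∀ y : Pt (fN h), (nfMap h ∘ ![y]) = ![nfMap h y] := by
        intro y
        funext i
        fin_cases i
        rfl
      rcases R with _ | _ | _ <;> rw [vec1 x]
      · exact (e (x 0)) ▸ nf_isM h (x 0)
      · exact (e (x 0)) ▸ nf_isP h (x 0)
      · exact (e (x 0)) ▸ nf_isQ h (x 0)

end normalForm

end Pool.Agent.Helper85.VC
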