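import Pool.Agent.Helper85.VC.Tax

/-! # Countable models of the common theory, and closedness of the set of their theories -/

namespace Pool.Agent.Helper85.VC

open FirstOrder FirstOrder.Language FirstOrder.Language.Structure Cardinal

variable {L : FirstOrder.Language.{0, 0}}

theorem relz_sentence {A B M : Type} [L.Structure M] (f : A → B → M) (σ : L.Sentence) :
    Pt f ⊨ (relz σ : (LL L).Sentence) ↔ M ⊨ σ := by
  have := realize_relz f σ (default : Empty → M) (default : Fin 0 → M)
  unfold Sentence.Realize Formula.Realize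
  rw [← this]
  have e1 : (fun a => Pt.m f ((default : Empty → M) a)) = default := Subsingleton.elim _ _
  have e2 : (fun a => Pt.m f ((default : Fin 0 → M) a)) = default := Subsingleton.elim _ _
  rw [e1, e2]

theorem ms_model {T : L.Theory} {N : Type} [(LL L).Structure N]
    (hN : ∀ σ ∈ Tax T, N ⊨ σ) : MS (good_of_tax hN) ⊨ T := by
  refine ⟨fun σ hσ => ?_⟩
  have h1 : (relz σ : (LL L).Sentence) ∈ Tax T := by
    intro M f _
    rw [relz_sentence]
    exact Theory.realize_sentence_of_mem T hσ
  have h2 := hN _ h1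
  rw [← StrongHomClass.realize_sentence (nf (good_of_tax hN)), relz_sentence] at h2
  exact h2

/-- a chosen generic function -/
noncomputable def gf (M : Type) [Countable M] [Nonempty M] : ℕ → ℕ → M := (exists_gen M).choose

theorem gen_gf (M : Type) [Countable M] [Nonempty M] : Gen (gf M) := (exists_gen M).choose_spec

theorem Gen.comp {A B M M' : Type} {f : A → B → M} (hf : Gen f) (j : M ≃ M') :
    Gen (fun a b => j (f a b)) := by
  constructor
  · intro S t v
    obtain ⟨a, ha, h⟩ := hf.left S t (fun b => j.symm (v b))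
    exact ⟨a, ha, fun b hb => by rw [h b hb, Equiv.apply_symm_apply]⟩
  · intro S t v
    obtain ⟨a, ha, h⟩ := hf.right S t (fun b => j.symm (v b))
    exact ⟨a, ha, fun b hb => by rw [h b hb, Equiv.apply_symm_apply]⟩

/-- two structures `Pt f` with isomorphic `M`-sorts are isomorphic -/
theorem iso_of_iso {A B A' B' M M' : Type} [Countable A] [Countable B] [Countable A']
    [Countable B'] [L.Structure M] [L.Structure M'] [Nonempty M']
    {f : A → B → M} {f' : A' → B' → M'} (hf : Gen f) (hf' : Gen f') (j : M ≃[L] M') :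
    Nonempty (Pt f ≃[LL L] Pt f') := by
  obtain ⟨α, β, h, -⟩ := (hf.comp j.toEquiv).unique hf' (s := ∅) (t := ∅) (by simp [Ok])
  exact ⟨ptEquiv j α β h⟩

theorem iso_out {T : L.Theory} {N : Type} [(LL L).Structure N] [Countable N]
    (hN : ∀ σ ∈ Tax T, N ⊨ σ) :
    ∃ c : Quotient (isoSetoid T), Nonempty (Pt (gf c.out) ≃[LL L] N) := by
  have := ms_model hN
  let M : CModel T := ⟨MS (good_of_tax hN)⟩
  refine ⟨Quotient.mk _ M, ?_⟩
  obtain ⟨h⟩ : Nonempty ((Quotient.mk (isoSetoid T) M).out ≃[L] M) :=
    Quotient.mk_out (s := isoSetoid T) M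
  obtain ⟨k⟩ := iso_of_iso (gen_gf (Quotient.mk (isoSetoid T) M).out)
    (gen_fN (good_of_tax hN)) h
  exact ⟨(nf (good_of_tax hN)).comp k⟩

open Classical in
/-- the complete theory, as a point of the Cantor space -/
noncomputable def Th (N : Type) [(LL L).Structure N] : (LL L).Sentence → Bool :=
  fun σ => decide (N ⊨ σ)

open Classical in
theorem th_eq_true {N : Type} [(LL L).Structure N] {σ : (LL L).Sentence} :
    Th N σ = true ↔ N ⊨ σ := by
  unfold Th
  exact decide_eq_true_iff

theorem exists_countable_model {L' : FirstOrder.Language.{0, 0}} [Countable L'.Symbols]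
    {T : L'.Theory} (h : T.IsSatisfiable) :
    ∃ (N : Type) (_ : L'.Structure N), Countable N ∧ Nonempty N ∧ N ⊨ T := by
  obtain ⟨M⟩ := h
  by_cases hc : Countable M
  · exact ⟨M, inferInstance, hc, inferInstance, inferInstance⟩
  · have h4 : ℵ₀ ≤ #M := by
      by_contra hlt
      exact hc (Cardinal.mk_le_aleph0_iff.mp (not_le.mp hlt).le)
    obtain ⟨S, -, hS⟩ := exists_elementarySubstructure_card_eq L' (M := M) ∅ Cardinal.aleph0.{0} le_rfl
      (by simp) (by
        rw [Cardinal.lift_aleph0]
        simp only [Cardinal.lift_le_aleph0, card]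
        exact Cardinal.mk_le_aleph0_iff.mpr ‹_›) (by simpa using h4)
    have hS' : #S = ℵ₀ := by simpa using hS
    refine ⟨S, inferInstance, Cardinal.mk_le_aleph0_iff.mp hS'.le, ?_, ?_⟩
    · exact Cardinal.mk_ne_zero_iff.mp (by rw [hS']; exact Cardinal.aleph0_ne_zero)
    · exact (S.theory_model_iff T).mpr inferInstance

theorem closed_range (T : L.Theory) [Countable L.Symbols] :
    IsClosed (Set.range fun c : Quotient (isoSetoid T) => Th (L := L) (Pt (gf c.out))) := by
  have : Countable (LL L).Symbols := by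
    rw [← Cardinal.mk_le_aleph0_iff]
    change (L.sum L1).card ≤ ℵ₀
    simp only [card_sum, add_le_aleph0, lift_le_aleph0]
    exact ⟨Cardinal.mk_le_aleph0_iff.mpr ‹_›, Cardinal.mk_le_aleph0_iff.mpr inferInstance⟩
  apply isClosed_of_closure_subset
  intro S hS
  rw [mem_closure_iff] at hS
  have key : ∀ F : Finset (LL L).Sentence, ∃ c : Quotient (isoSetoid T), ∀ σ ∈ F,
      Th (L := L) (Pt (gf c.out)) σ = S σ := by
    intro F
    obtain ⟨x, hx, c, rfl⟩ := hS {x | ∀ σ ∈ F, x σ = S σ} (by
      have := isOpen_set_pi (A := fun _ : (LL L).Sentence => Bool) (i := (F : Set (LL L).Sentence))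
        (s := fun σ => {S σ}) F.finite_toSet (fun σ _ => isOpen_discrete {S σ})
      convert this using 1
      ext x
      simp [Set.mem_pi]) (fun σ _ => rfl)
    exact ⟨c, hx⟩
  have hneg : ∀ σ, S σ = false → S σ.not = true := by
    classical
    intro σ hσ
    obtain ⟨c, hc⟩ := key {σ, σ.not}
    have h1 := hc σ (by simp)
    have h2 := hc σ.not (by simp)
    rw [hσ] at h1
    rw [← h2, th_eq_true, Sentence.realize_not, ← th_eq_true, h1]
    simp
  let TS : (LL L).Theory := {σ | S σ = true}
  have hsat : TS.IsSatisfiable := by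
    rw [Theory.isSatisfiable_iff_isFinitelySatisfiable]
    intro F hF
    obtain ⟨c, hc⟩ := key F
    have : Pt (gf c.out) ⊨ (F : (LL L).Theory) := by
      refine ⟨fun σ hσ => ?_⟩
      rw [← th_eq_true, hc σ hσ]
      exact hF hσ
    exact Theory.Model.isSatisfiable (Pt (gf c.out))
  obtain ⟨N, _, _, _, hN⟩ := exists_countable_model hsat
  have hN' : ∀ σ, S σ = true → N ⊨ σ := fun σ hσ => Theory.realize_sentence_of_mem TS hσ
  have htax : ∀ σ ∈ Tax T, N ⊨ σ := by
    intro σ hσ
    apply hN'
    obtain ⟨c, hc⟩ := key {σ}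
    rw [← hc σ (by simp), th_eq_true]
    exact hσ _ _ (gen_gf _)
  obtain ⟨c, ⟨k⟩⟩ := iso_out htax
  refine ⟨c, ?_⟩
  funext σ
  cases hs : S σ
  · have h1 := hN' _ (hneg σ hs)
    rw [Sentence.realize_not, ← StrongHomClass.realize_sentence k, ← th_eq_true] at h1
    simpa using h1
  · have h1 := hN' _ hs
    rw [← StrongHomClass.realize_sentence k, ← th_eq_true] at h1
    exact h1

end Pool.Agent.Helper85.VC
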