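import Pool.Agent.Helper85.VC.Iso
import Pool.Agent.Helper85.VC.EqForward
import Pool.Agent.Helper85.VC.EqHome

/-! # Q1 (for pure infinite sets) implies Vaught's conjecture -/

namespace Pool.Agent.Helper85.VC

open FirstOrder FirstOrder.Language FirstOrder.Language.Structure Cardinal

variable {L : FirstOrder.Language.{0, 0}}

instance countable_LL [Countable L.Symbols] : Countable (LL L).Symbols := by
  rw [← Cardinal.mk_le_aleph0_iff]
  change (L.sum L1).card ≤ ℵ₀
  simp only [card_sum, add_le_aleph0, lift_le_aleph0]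
  exact ⟨Cardinal.mk_le_aleph0_iff.mpr ‹_›, Cardinal.mk_le_aleph0_iff.mpr inferInstance⟩

/-- homogeneity: injective finite tuples of the sort `Q` are conjugate -/
theorem homog {N : Type} [(LL L).Structure N] [Countable N] (h : Good L N) {α : Type} [Finite α]
    (x x' : α → N) (hx : ∀ i, isQ L (x i)) (hx' : ∀ i, isQ L (x' i))
    (hi : Function.Injective x) (hi' : Function.Injective x') :
    ∃ g : N ≃[LL L] N, ∀ i, g (x i) = x' i := by
  classical
  have := Fintype.ofFinite α
  let t : Finset (QS h × QS h) :=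
    Finset.univ.image (fun i : α => ((⟨x i, hx i⟩ : QS h), (⟨x' i, hx' i⟩ : QS h)))
  have hok : Ok (fN h) (fN h) ∅ t := by
    refine ⟨by simp, ?_, by simp⟩
    intro y hy z hz
    obtain ⟨i, -, rfl⟩ := Finset.mem_image.1 hy
    obtain ⟨j, -, rfl⟩ := Finset.mem_image.1 hz
    constructor
    · intro hij
      have : i = j := hi (congrArg Subtype.val hij)
      rw [this]
    · intro hij
      have : i = j := hi' (congrArg Subtype.val hij)
      rw [this]
  obtain ⟨a, b, hab, -, hb⟩ := (gen_fN h).unique (gen_fN h) hok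
  let g0 : Pt (fN h) ≃[LL L] Pt (fN h) := ptEquiv (Language.Equiv.refl L (MS h)) a b hab
  refine ⟨((nf h).comp g0).comp (nf h).symm, fun i => ?_⟩
  have h1 : (nf h).symm (x i) = Pt.q (fN h) (⟨x i, hx i⟩ : QS h) := by
    exact (nf h).symm_apply_apply (Pt.q (fN h) (⟨x i, hx i⟩ : QS h))
  have h2 : g0 (Pt.q (fN h) (⟨x i, hx i⟩ : QS h)) = Pt.q (fN h) (b ⟨x i, hx i⟩) := rfl
  have h3 : b ⟨x i, hx i⟩ = ⟨x' i, hx' i⟩ := hb _ (Finset.mem_image_of_mem _ (Finset.mem_univ i))
  change nf h (g0 ((nf h).symm (x i))) = x' i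
  rw [h1, h2, h3]
  rfl

/-- the sentence saying that all injective tuples of the sort `Q` satisfy `ψ` -/
noncomputable def allInj {α : Type} [Finite α] (ψ : (LL L).Formula α) : (LL L).Sentence :=
  Formula.iAlls α (Formula.relabel (Sum.inr : α → Empty ⊕ α)
    ((Formula.iInf fun x : {x : α × α // x.1 ≠ x.2} =>
      ((Term.var x.1.1).equal (Term.var x.1.2)).not).imp
      ((Formula.iInf fun i : α => fQ (Term.var i)).imp ψ)))

theorem realize_allInj {α : Type} [Finite α] (ψ : (LL L).Formula α) (N : Type)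
    [(LL L).Structure N] : N ⊨ allInj ψ ↔ ∀ v : α → N, Function.Injective v →
      (∀ i, isQ L (v i)) → ψ.Realize v := by
  unfold Sentence.Realize allInj
  rw [Formula.realize_iAlls]
  refine forall_congr' fun v => ?_
  rw [Formula.realize_relabel]
  simp only [Formula.realize_imp, Formula.realize_iInf, Formula.realize_not,
    Formula.realize_equal, realize_fQ, Term.realize_var]
  exact imp_congr (inj_iff v) Iff.rfl

theorem realize_allInj' {α : Type} [Finite α] (ψ : (LL L).Formula α) (N : Type)
    [(LL L).Structure N] [Countable N] (h : Good L N) (x : α → N) (hi : Function.Injective x)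
    (hx : ∀ i, isQ L (x i)) : N ⊨ allInj ψ ↔ ψ.Realize x := by
  rw [realize_allInj]
  constructor
  · intro h'
    exact h' x hi hx
  · intro h' v hv hv'
    obtain ⟨g, hg⟩ := homog h x v hx hv' hi hv
    have : v = g ∘ x := (funext hg).symm
    rw [this, StrongHomClass.realize_formula g]
    exact h'

/-- any bijection between `Q`-sorts of elementarily equivalent good structures is elementary -/
theorem elem_of_good {N N' : Type} [(LL L).Structure N] [(LL L).Structure N'] [Countable N]
    [Countable N'] (h : Good L N) (h' : Good L N') (he : ∀ σ : (LL L).Sentence, N ⊨ σ ↔ N' ⊨ σ)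
    {X : Set N} {Y : Set N'} (hX : ∀ x ∈ X, isQ L x) (hY : ∀ y ∈ Y, isQ L y) (e : X ≃ Y) :
    Elem (LL L) e := by
  classical
  intro φ
  let ψ : (LL L).Formula φ.freeVarFinset := φ.restrictFreeVar id
  have h1 : φ.Realize (fun x => (x : N)) ↔ ψ.Realize (fun x => (x.1 : N)) :=
    (BoundedFormula.realize_restrictFreeVar (f := id) (v := fun x => ((x.1 : X) : N))
      (fun x : X => (x : N)) (fun a => rfl)).symm
  have h2 : φ.Realize (fun x => (e x : N')) ↔ ψ.Realize (fun x => (e x.1 : N')) :=
    (BoundedFormula.realize_restrictFreeVar (f := id) (v := fun x => ((e x.1 : Y) : N'))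
      (fun x : X => ((e x : Y) : N')) (fun a => rfl)).symm
  rw [h1, h2, ← realize_allInj' ψ N h, ← realize_allInj' ψ N' h', he]
  · intro x y hxy
    exact Subtype.ext (e.injective (Subtype.ext hxy))
  · intro i
    exact hY _ (e i.1).2
  · intro x y hxy
    exact Subtype.ext (Subtype.ext hxy)
  · intro i
    exact hX _ i.1.2

theorem infinite_isQ {N : Type} [(LL L).Structure N] (h : Good L N) :
    {x : N | isQ L x}.Infinite := by
  intro hf
  have := hf.to_subtype
  obtain ⟨q, hq, hne, -⟩ := h.right {x : N | isQ L x} Empty (fun x => x.1) Empty.elim Empty.elim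
    (fun x => x.elim) (fun x => x.elim) (fun x => x.elim)
  exact hne ⟨q, hq⟩ rfl

theorem sol_fQ (N : Type) [(LL L).Structure N] :
    sol (fun _ => {fQ (L := L) (Term.var 0)}) N = {x : N | isQ L x} := by
  ext x
  simp [sol]

/-- an isomorphism from two parallel surjective enumerations -/
theorem iso_of_surj {X M M' : Type} [L.Structure M] [L.Structure M'] (u : X → M) (u' : X → M')
    (hu : Function.Surjective u) (hu' : Function.Surjective u')
    (heq : ∀ x y, u x = u y ↔ u' x = u' y)
    (hfun : ∀ (n : ℕ) (g : L.Functions n) (xs : Fin n → X) (y : X),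
      funMap g (fun i => u (xs i)) = u y ↔ funMap g (fun i => u' (xs i)) = u' y)
    (hrel : ∀ (n : ℕ) (R : L.Relations n) (xs : Fin n → X),
      RelMap R (fun i => u (xs i)) ↔ RelMap R (fun i => u' (xs i))) :
    Nonempty (M ≃[L] M') := by
  choose r hr using hu
  have hj : ∀ x, u' (r (u x)) = u' x := fun x => (heq _ _).1 (hr _)
  have hbij : Function.Bijective fun m => u' (r m) := by
    constructor
    · intro m m' h
      have := (heq _ _).2 h
      rwa [hr, hr] at this
    · intro m'
      obtain ⟨x, rfl⟩ := hu' m'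
      exact ⟨u x, hj x⟩
  refine ⟨⟨Equiv.ofBijective _ hbij, ?_, ?_⟩⟩
  · intro n g xs
    have h1 : funMap g (fun i => u (r (xs i))) = u (r (funMap g xs)) := by
      simp only [hr]
    exact ((hfun n g _ _).1 h1).symm
  · intro n R xs
    have h1 := hrel n R (fun i => r (xs i))
    simp only [hr] at h1
    exact h1.symm

/-- From a theory with uncountably many but fewer than continuum many countable models we get a
complete theory with at most as many countable models and a formula `φ` defining in every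
countable model a pure infinite set, with uncountably many good `φ(M)`-pseudotypes for each `M`. -/
theorem counterexample (L : FirstOrder.Language.{0, 0}) [Countable L.Symbols] (T : L.Theory)
    (hc : ¬ numModels T ≤ ℵ₀) (hfew : numModels T < 𝔠) :
    ∃ (L' : FirstOrder.Language.{0, 0}) (_ : Countable L'.Symbols) (T' : L'.Theory)
      (φ : L'.Formula (Fin 1)), T'.IsComplete ∧ Nonempty (CModel T') ∧
      numModels T' ≤ numModels T ∧
      (∀ N : CModel T', (sol (fun _ => {φ}) N).Infinite ∧
        ∀ σ : Equiv.Perm (sol (fun _ => {φ}) N), Elem L' σ) ∧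
      ∀ N : CModel T', ¬ Countable (Quotient (pseudoSetoid (fun _ => {φ}) N 1)) := by
  have hunc : ¬ Countable (Quotient (isoSetoid T)) := by
    rw [← Cardinal.mk_le_aleph0_iff]
    exact hc
  let F : Quotient (isoSetoid T) → ((LL L).Sentence → Bool) := fun c => Th (L := L) (Pt (gf c.out))
  have hr : (Set.range F).Countable := by
    by_contra hun
    have : Countable ((LL L).Sentence) := inferInstanceAs (Countable ((LL L).Formula Empty))
    have : PolishSpace ((LL L).Sentence → Bool) := {}
    obtain ⟨g, hg, -, hinj⟩ :=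
      (closed_range T).exists_nat_bool_injection_of_not_countable hun
    choose r hr using fun x => hg (Set.mem_range_self x)
    have hrinj : Function.Injective r := by
      intro x y hxy
      apply hinj
      rw [← hr x, ← hr y, hxy]
    have h1 := Cardinal.mk_le_of_injective (f := fun x : ULift.{1} (ℕ → Bool) => r x.down)
      (fun x y hxy => ULift.down_injective (hrinj hxy))
    have h2 : #(ULift.{1} (ℕ → Bool)) = 𝔠 := by simp
    rw [h2] at h1
    exact absurd hfew (not_lt.mpr h1)
  obtain ⟨c0, hc0⟩ : ∃ c0, ¬ Countable {c // F c = F c0} := by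
    by_contra hcon
    push Not at hcon
    apply hunc
    rw [← Set.countable_univ_iff]
    have : (Set.univ : Set (Quotient (isoSetoid T))) = ⋃ y ∈ Set.range F, F ⁻¹' {y} := by
      ext c
      simp
    rw [this]
    refine hr.biUnion ?_
    rintro _ ⟨c, rfl⟩
    exact (hcon c).to_set
  let M0 : Type := Pt (gf c0.out)
  let T' : (LL L).Theory := (LL L).completeTheory M0
  have hT' : T'.IsComplete := completeTheory.isComplete (LL L) M0
  have hmod : ∀ N : CModel T', ∀ σ : (LL L).Sentence, M0 ⊨ σ ↔ N ⊨ σ := by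
    intro N σ
    exact (realize_iff_of_model_completeTheory M0 N σ).symm
  have htax : ∀ N : CModel T', ∀ σ ∈ Tax T, N ⊨ σ := by
    intro N σ hσ
    rw [← hmod]
    exact hσ _ _ (gen_gf _)
  have hgood : ∀ N : CModel T', Good L N := fun N => good_of_tax (htax N)
  have hfew' : numModels T' ≤ numModels T := by
    choose c hc using fun d : Quotient (isoSetoid T') => iso_out (htax d.out)
    refine Cardinal.mk_le_of_injective (f := c) ?_
    intro d d' hdd
    obtain ⟨k⟩ := hc d
    obtain ⟨k'⟩ := hc d'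
    rw [← hdd] at k'
    exact Quotient.out_equiv_out.1 ⟨k'.comp k.symm⟩
  let φ : (LL L).Formula (Fin 1) := fQ (Term.var 0)
  have hsol : ∀ N : CModel T', sol (fun _ => {φ}) N = {x : N | isQ L x} := fun N => sol_fQ N
  have helem : ∀ (N N' : CModel T') (e : sol (fun _ => {φ}) N ≃ sol (fun _ => {φ}) N'),
      Elem (LL L) e := by
    intro N N' e
    refine elem_of_good (hgood N) (hgood N') (fun σ => (hmod N σ).symm.trans (hmod N' σ))
      (fun x hx => ?_) (fun y hy => ?_) e
    · rw [hsol] at hx
      exact hx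
    · rw [hsol] at hy
      exact hy
  have hinf : ∀ N : CModel T', (sol (fun _ => {φ}) N).Infinite := by
    intro N
    rw [hsol]
    exact infinite_isQ (hgood N)
  refine ⟨LL L, inferInstance, T', φ, hT', ⟨⟨M0⟩⟩, hfew', fun N => ⟨hinf N, fun σ => helem N N σ⟩,
    fun Ms hcount => hc0 ?_⟩
  have hNc : ∀ c : {c // F c = F c0}, Pt (gf c.1.out) ⊨ T' := by
    intro c
    refine ⟨fun σ hσ => ?_⟩
    have h1 : M0 ⊨ σ := hσ
    rw [← th_eq_true] at h1
    have h2 : Th (L := L) (Pt (gf c.1.out)) σ = true := (congrFun c.2 σ).trans h1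
    exact th_eq_true.1 h2
  let Nc : {c // F c = F c0} → CModel T' := fun c =>
    @CModel.mk _ T' (Pt (gf c.1.out)) _ _ _ (hNc c)
  have he : ∀ c, Nonempty (sol (fun _ => {φ}) Ms ≃ sol (fun _ => {φ}) (Nc c)) := by
    intro c
    have := (hinf Ms).to_subtype
    have := (hinf (Nc c)).to_subtype
    exact nonempty_equiv_of_countable
  let e : ∀ c, sol (fun _ => {φ}) Ms ≃ sol (fun _ => {φ}) (Nc c) := fun c => (he c).some
  let a : ∀ c, Fin 1 → Nc c := fun c _ => Pt.p (gf c.1.out) 0
  let G : {c // F c = F c0} → Quotient (pseudoSetoid (fun _ => {φ}) Ms 1) := fun c =>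
    Quotient.mk _ ⟨tp (LL L) (e c) (a c), ⟨Nc c, e c, a c, helem _ _ _, rfl⟩⟩
  have hval : ∀ (c : {c // F c = F c0}) (x : sol (fun _ => {φ}) Ms), ∃ m : c.1.out,
      FF L (Pt.p (gf c.1.out) 0) ((e c x : sol (fun _ => {φ}) (Nc c)) : Pt (gf c.1.out)) =
        Pt.m (gf c.1.out) m := by
    intro c x
    have h1 : isQ L ((e c x : sol (fun _ => {φ}) (Nc c)) : Nc c) :=
      (Set.ext_iff.1 (hsol (Nc c)) _).1 (e c x).2
    obtain ⟨b, hb⟩ := h1
    have hb' : ((e c x : sol (fun _ => {φ}) (Nc c)) : Pt (gf c.1.out)) =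
      Pt.q (gf c.1.out) b := hb
    rw [hb']
    exact ⟨gf c.1.out 0 b, rfl⟩
  choose u hu using hval
  have husurj : ∀ c, Function.Surjective (u c) := by
    intro c m
    obtain ⟨b, -, hb⟩ := (gen_gf c.1.out).right ∅ {0} (fun _ => m)
    have hb' : gf c.1.out 0 b = m := hb 0 (by simp)
    have hq : (Pt.q (gf c.1.out) b : Pt (gf c.1.out)) ∈ sol (fun _ => {φ}) (Nc c) := by
      rw [hsol]
      exact ⟨b, rfl⟩
    refine ⟨(e c).symm ⟨Pt.q (gf c.1.out) b, hq⟩, ?_⟩
    have h1 := hu c ((e c).symm ⟨Pt.q (gf c.1.out) b, hq⟩)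
    rw [Equiv.apply_symm_apply] at h1
    have h2 : Pt.m (gf c.1.out) (gf c.1.out 0 b) = Pt.m (gf c.1.out) (u c _) := h1
    rw [← Pt.m_inj h2, hb']
  refine Function.Injective.countable (f := G) ?_
  intro c d hcd
  obtain ⟨σ, -, hσ⟩ := Quotient.exact hcd
  let tq : sol (fun _ => {φ}) Ms → (LL L).Term (Fin 1 ⊕ sol (fun _ => {φ}) Ms) :=
    fun x => tF (Term.var (Sum.inl 0)) (Term.var (Sum.inr x))
  have h1 : ∀ x, (tq x).realize (Sum.elim (a c)
      (fun x => ((e c x : sol (fun _ => {φ}) (Nc c)) : Nc c))) = Pt.m (gf c.1.out) (u c x) := by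
    intro x
    exact (realize_tF _ _ _).trans (hu c x)
  have h2 : ∀ x, (tq x).realize ((Sum.elim (a d)
      (fun x => ((e d x : sol (fun _ => {φ}) (Nc d)) : Nc d))) ∘ Sum.map id σ) =
      Pt.m (gf d.1.out) (u d (σ x)) := by
    intro x
    exact (realize_tF _ _ _).trans (hu d (σ x))
  have key : ∀ ψ : (LL L).Formula (Fin 1 ⊕ sol (fun _ => {φ}) Ms),
      ψ.Realize (Sum.elim (a c) (fun x => ((e c x : sol (fun _ => {φ}) (Nc c)) : Nc c))) ↔
      ψ.Realize ((Sum.elim (a d)
      (fun x => ((e d x : sol (fun _ => {φ}) (Nc d)) : Nc d))) ∘ Sum.map id σ) := by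
    intro ψ
    rw [← mem_tp_relabel, ← mem_tp]
    exact hσ ψ
  have hiso : Nonempty (c.1.out ≃[L] d.1.out) := by
    refine iso_of_surj (u c) (fun x => u d (σ x)) (husurj c)
      ((husurj d).comp σ.surjective) ?_ ?_ ?_
    · intro x y
      have := key ((tq x).equal (tq y))
      rw [Formula.realize_equal, Formula.realize_equal, h1, h1, h2, h2] at this
      exact ⟨fun h => Pt.m_inj (this.1 (congrArg _ h)), fun h => Pt.m_inj (this.2 (congrArg _ h))⟩
    · intro n g xs y
      have := key ((tg g (fun i => tq (xs i))).equal (tq y))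
      rw [Formula.realize_equal, Formula.realize_equal, realize_tg, realize_tg] at this
      simp only [h1, h2] at this
      have h3 := pt_gg_m (gf c.1.out) g (fun i => u c (xs i))
      have h4 := pt_gg_m (gf d.1.out) g (fun i => u d (σ (xs i)))
      have h5 : Pt.m (gf c.1.out) (funMap g (fun i => u c (xs i))) = Pt.m (gf c.1.out) (u c y) ↔
          Pt.m (gf d.1.out) (funMap g (fun i => u d (σ (xs i)))) =
            Pt.m (gf d.1.out) (u d (σ y)) := by
        rw [← h3, ← h4]
        exact this
      exact ⟨fun h => Pt.m_inj (h5.1 (congrArg _ h)), fun h => Pt.m_inj (h5.2 (congrArg _ h))⟩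
    · intro n R xs
      have := key (fR R (fun i => tq (xs i)))
      rw [realize_fR, realize_fR] at this
      simp only [h1, h2] at this
      have h3 := pt_rr_m (gf c.1.out) R (fun i => u c (xs i))
      have h4 := pt_rr_m (gf d.1.out) R (fun i => u d (σ (xs i)))
      exact h3.symm.trans (this.trans h4)
  exact Subtype.ext (Quotient.out_equiv_out.1 hiso)

theorem vc_of_q1pure (hQ : Q1Pure) : VaughtConjecture := by
  intro L _ T _ hfew
  by_contra hc
  obtain ⟨L', _, T', φ, h1, ⟨N⟩, h2, h3, h4⟩ := counterexample L T hc hfew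
  have hcount := hQ L' T' h1 (lt_of_le_of_lt h2 hfew) φ h3 N
  exact h4 N hcount

theorem q1Pure_of_q1Home (h : Q1Home) : Q1Pure := by
  intro L _ T hT hfew φ _ M
  have := h L T hT hfew (fun _ => {φ}) M
  refine Function.Injective.countable (β := GoodPseudotype (fun _ => {φ}) M)
    (f := fun c => ⟨1, c⟩) ?_
  intro c d hcd
  exact eq_of_heq (Sigma.mk.inj hcd).2

/-- Q1, its restriction to pure infinite sets, and Vaught's conjecture are equivalent. -/
theorem main : List.TFAE [VaughtConjecture, Q1, Q1Pure] := by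
  tfae_have 1 → 2 := q1_of_vc
  tfae_have 2 → 3 := fun h => q1Pure_of_q1Home (q1Home_of_q1 h)
  tfae_have 3 → 1 := vc_of_q1pure
  tfae_finish

end Pool.Agent.Helper85.VC
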