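import Pool.Agent.Helper85.VC.BackForth

/-! # The structure `Pt f` coding `f : A → B → M`, and relativisation -/

namespace Pool.Agent.Helper85.VC

open FirstOrder FirstOrder.Language FirstOrder.Language.Structure Cardinal

/-- new function symbols: a constant `inf` (junk value) and the binary `F` -/
inductive F1 : ℕ → Type
  | inf : F1 0
  | F : F1 2

/-- new relation symbols: the three sorts -/
inductive R1 : ℕ → Type
  | isM : R1 1
  | isP : R1 1
  | isQ : R1 1

/-- the language of the new symbols -/
def L1 : FirstOrder.Language.{0, 0} := ⟨F1, R1⟩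

/-- the language of the structures `Pt f` -/
abbrev LL (L : FirstOrder.Language.{0, 0}) : FirstOrder.Language.{0, 0} := L.sum L1

instance : Countable L1.Symbols := by
  refine Function.Injective.countable
    (f := fun x : L1.Symbols => match x with
      | Sum.inl ⟨_, F1.inf⟩ => (0 : ℕ)
      | Sum.inl ⟨_, F1.F⟩ => 1
      | Sum.inr ⟨_, R1.isM⟩ => 2
      | Sum.inr ⟨_, R1.isP⟩ => 3
      | Sum.inr ⟨_, R1.isQ⟩ => 4) ?_
  rintro (⟨_, _ | _⟩ | ⟨_, _ | _ | _⟩) (⟨_, _ | _⟩ | ⟨_, _ | _ | _⟩) h <;> first | rfl | cases h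

/-- underlying inductive type -/
inductive PtT (M A B : Type)
  | inf : PtT M A B
  | m (x : M) : PtT M A B
  | p (a : A) : PtT M A B
  | q (b : B) : PtT M A B

/-- The structure coding `f : A → B → M`. -/
def Pt {A B M : Type} (_f : A → B → M) : Type := PtT M A B

variable {L : FirstOrder.Language.{0, 0}} {A B M : Type}

/-- element of the sort `M` -/
def Pt.m (f : A → B → M) (x : M) : Pt f := PtT.m x
/-- element of the sort `P` -/
def Pt.p (f : A → B → M) (x : A) : Pt f := PtT.p x
/-- element of the sort `Q` -/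
def Pt.q (f : A → B → M) (x : B) : Pt f := PtT.q x
/-- the junk element -/
def Pt.inf (f : A → B → M) : Pt f := PtT.inf

theorem Pt.m_inj {f : A → B → M} {x y : M} (h : Pt.m f x = Pt.m f y) : x = y := PtT.m.inj h
theorem Pt.p_inj {f : A → B → M} {x y : A} (h : Pt.p f x = Pt.p f y) : x = y := PtT.p.inj h
theorem Pt.q_inj {f : A → B → M} {x y : B} (h : Pt.q f x = Pt.q f y) : x = y := PtT.q.inj h

instance (f : A → B → M) : Nonempty (Pt f) := ⟨PtT.inf⟩

instance (f : A → B → M) [Countable A] [Countable B] [Countable M] : Countable (Pt f) := by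
  refine Function.Injective.countable
    (f := fun x : Pt f => match x with
      | PtT.inf => (Sum.inl () : Unit ⊕ M ⊕ A ⊕ B)
      | PtT.m x => Sum.inr (Sum.inl x)
      | PtT.p x => Sum.inr (Sum.inr (Sum.inl x))
      | PtT.q x => Sum.inr (Sum.inr (Sum.inr x))) ?_
  rintro (_ | _ | _ | _) (_ | _ | _ | _) h <;>
    first | rfl | (simp at h; done) | (simp at h; subst h; rfl)

open Classical in
noncomputable instance [L.Structure M] (f : A → B → M) : L.Structure (Pt f) where
  funMap g xs := if h : ∃ ys : _ → M, xs = fun i => Pt.m f (ys i) then Pt.m f (funMap g h.choose)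
    else Pt.inf f
  RelMap R xs := ∃ ys : _ → M, (xs = fun i => Pt.m f (ys i)) ∧ RelMap R ys

/-- the value of `F` -/
def ptF (f : A → B → M) : Pt f → Pt f → Pt f
  | PtT.p a, PtT.q b => PtT.m (f a b)
  | _, _ => PtT.inf

noncomputable instance (f : A → B → M) : L1.Structure (Pt f) where
  funMap {n} g := match n, g with
    | _, F1.inf => fun _ => Pt.inf f
    | _, F1.F => fun xs => ptF f (xs 0) (xs 1)
  RelMap {n} R := match n, R with
    | _, R1.isM => fun xs => ∃ y, xs 0 = Pt.m f y
    | _, R1.isP => fun xs => ∃ y, xs 0 = Pt.p f y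
    | _, R1.isQ => fun xs => ∃ y, xs 0 = Pt.q f y

section notation_

variable (L) {N : Type} [(LL L).Structure N]

/-- sort `M` -/
def isM (x : N) : Prop := RelMap (L := LL L) (Sum.inr R1.isM : (LL L).Relations 1) ![x]
/-- sort `P` -/
def isP (x : N) : Prop := RelMap (L := LL L) (Sum.inr R1.isP : (LL L).Relations 1) ![x]
/-- sort `Q` -/
def isQ (x : N) : Prop := RelMap (L := LL L) (Sum.inr R1.isQ : (LL L).Relations 1) ![x]
/-- the function `F` -/
def FF (x y : N) : N := funMap (L := LL L) (Sum.inr F1.F : (LL L).Functions 2) ![x, y]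
variable (N) in
/-- the junk element -/
def infty : N := funMap (L := LL L) (Sum.inr F1.inf : (LL L).Functions 0) ![]
/-- old function symbols -/
def gg {n : ℕ} (g : L.Functions n) (xs : Fin n → N) : N :=
  funMap (L := LL L) (Sum.inl g : (LL L).Functions n) xs
/-- old relation symbols -/
def rr {n : ℕ} (R : L.Relations n) (xs : Fin n → N) : Prop :=
  RelMap (L := LL L) (Sum.inl R : (LL L).Relations n) xs

end notation_

section PtLemmas

variable [L.Structure M] (f : A → B → M)

theorem pt_gg_m {n : ℕ} (g : L.Functions n) (ys : Fin n → M) :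
    gg L g (fun i => Pt.m f (ys i)) = Pt.m f (funMap g ys) := by
  have h : ∃ zs : _ → M, (fun i => Pt.m f (ys i)) = fun i => Pt.m f (zs i) := ⟨ys, rfl⟩
  have e : h.choose = ys := by
    funext i
    have := congrFun h.choose_spec i
    exact (Pt.m_inj this).symm
  unfold gg
  rw [funMap_sumInl]
  exact (dif_pos h).trans (by rw [e])

theorem pt_gg_junk {n : ℕ} (g : L.Functions n) (xs : Fin n → Pt f)
    (h : ¬ ∃ ys : _ → M, xs = fun i => Pt.m f (ys i)) : gg L g xs = Pt.inf f := by
  unfold gg
  rw [funMap_sumInl]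
  exact dif_neg h

theorem pt_rr_iff {n : ℕ} (R : L.Relations n) (xs : Fin n → Pt f) :
    rr L R xs ↔ ∃ ys : _ → M, (xs = fun i => Pt.m f (ys i)) ∧ RelMap R ys := Iff.rfl

theorem pt_rr_m {n : ℕ} (R : L.Relations n) (ys : Fin n → M) :
    rr L R (fun i => Pt.m f (ys i)) ↔ RelMap R ys := by
  rw [pt_rr_iff]
  constructor
  · rintro ⟨zs, h1, h2⟩
    have : ys = zs := by
      funext i
      exact Pt.m_inj (congrFun h1 i)
    rwa [this]
  · exact fun h => ⟨ys, rfl, h⟩

theorem pt_isM (x : Pt f) : isM L x ↔ ∃ y, x = Pt.m f y := Iff.rfl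
theorem pt_isP (x : Pt f) : isP L x ↔ ∃ y, x = Pt.p f y := Iff.rfl
theorem pt_isQ (x : Pt f) : isQ L x ↔ ∃ y, x = Pt.q f y := Iff.rfl
theorem pt_infty : infty L (Pt f) = Pt.inf f := rfl
theorem pt_FF (x y : Pt f) : FF L x y = ptF f x y := rfl

end PtLemmas

/-! ### Relativisation of formulas to the sort `M` -/

/-- relativisation of a formula to the sort `M` -/
def relz {α : Type} : ∀ {n : ℕ}, L.BoundedFormula α n → (LL L).BoundedFormula α n
  | _, .falsum => .falsum
  | _, .equal t₁ t₂ => .equal (LHom.sumInl.onTerm t₁) (LHom.sumInl.onTerm t₂)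
  | _, .rel R ts => .rel (Sum.inl R) (fun i => LHom.sumInl.onTerm (ts i))
  | _, .imp φ ψ => .imp (relz φ) (relz ψ)
  | n, .all φ => .all (.imp (.rel (Sum.inr R1.isM : (LL L).Relations 1)
      (fun _ => Term.var (Sum.inr (Fin.last n)))) (relz φ))

theorem realize_relz_term {α : Type} [L.Structure M] (f : A → B → M) (v : α → M) (t : L.Term α) :
    ((LHom.sumInl : L →ᴸ LL L).onTerm t).realize (fun a => Pt.m f (v a)) =
      Pt.m f (t.realize v) := by
  induction t with
  | var => rfl
  | func g ts ih =>
    have := pt_gg_m f g (fun i => (ts i).realize v)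
    rw [Term.realize_func, ← this]
    unfold gg
    change funMap (L := LL L) (Sum.inl g) _ = _
    congr 1
    funext i
    exact ih i

theorem realize_relz {α : Type} [L.Structure M] (f : A → B → M) {n : ℕ}
    (φ : L.BoundedFormula α n) (v : α → M) (xs : Fin n → M) :
    (relz φ).Realize (fun a => Pt.m f (v a)) (fun i => Pt.m f (xs i)) ↔
      φ.Realize v xs := by
  have hel : ∀ {n : ℕ} (xs : Fin n → M),
      Sum.elim (fun a => Pt.m f (v a)) (fun i => Pt.m f (xs i)) =
      fun x => Pt.m f (Sum.elim v xs x) := by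
    intro n xs
    funext x
    rcases x with a | i <;> rfl
  induction φ with
  | falsum => exact Iff.rfl
  | equal t₁ t₂ =>
    change Term.realize _ _ = Term.realize _ _ ↔ _
    rw [hel, realize_relz_term, realize_relz_term]
    constructor
    · intro h
      exact Pt.m_inj h
    · intro h
      have h' : t₁.realize (Sum.elim v xs) = t₂.realize (Sum.elim v xs) := h
      rw [h']
  | rel R ts =>
    change RelMap (L := LL L) (Sum.inl R) _ ↔ _
    rw [hel]
    simp only [realize_relz_term]
    exact pt_rr_m f R _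
  | imp φ ψ ih1 ih2 =>
    exact imp_congr (ih1 xs) (ih2 xs)
  | @all n φ ih =>
    have hsn : ∀ y, (Fin.snoc (fun i => Pt.m f (xs i)) (Pt.m f y) : Fin (n + 1) → Pt f) =
        fun i => Pt.m f ((Fin.snoc xs y : Fin (n + 1) → M) i) := by
      intro y
      exact (Fin.comp_snoc (Pt.m f) xs y).symm
    constructor
    · intro h y
      have h1 := h (Pt.m f y) ⟨y, by
        change (Fin.snoc (fun i => Pt.m f (xs i)) (Pt.m f y) : Fin (n + 1) → Pt f) (Fin.last n) = _
        rw [Fin.snoc_last]⟩
      rw [hsn] at h1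
      exact (ih _).1 h1
    · intro h x hx
      obtain ⟨y, hy⟩ := hx
      have hy' : x = Pt.m f y := by
        have : (Fin.snoc (fun i => Pt.m f (xs i)) x : Fin (n + 1) → Pt f) (Fin.last n) =
          Pt.m f y := hy
        rwa [Fin.snoc_last] at this
      subst hy'
      rw [hsn]
      exact (ih _).2 (h y)

end Pool.Agent.Helper85.VC
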