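import Mathlib

/-!
# Countable models and imaginary elements: the two structures of the statement
-/

namespace Pool.Agent.Helper85.VC

open FirstOrder Language Cardinal

/-- A countable (nonempty) model of `T`. -/
structure CModel {L : FirstOrder.Language.{0, 0}} (T : L.Theory) where
  /-- the underlying set -/
  carrier : Type
  [str : L.Structure carrier]
  [ne : Nonempty carrier]
  [ctbl : Countable carrier]
  [model : carrier ⊨ T]

attribute [instance] CModel.str CModel.ne CModel.ctbl CModel.model

instance {L : FirstOrder.Language.{0, 0}} (T : L.Theory) : CoeSort (CModel T) Type :=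
  ⟨CModel.carrier⟩

/-- An imaginary element of the structure `M`: an `E`-class, together with the formula `E`. -/
structure Imag (L : FirstOrder.Language.{0, 0}) (M : Type) [L.Structure M] where
  /-- the sort: a formula `E(x, y)` -/
  sort : L.Formula (ℕ ⊕ ℕ)
  equiv : Equivalence fun r s : ℕ → M => sort.Realize (Sum.elim r s)
  /-- the `E`-class -/
  cls : Set (ℕ → M)
  cls_eq : ∃ r, cls = {s | sort.Realize (Sum.elim r s)}

end Pool.Agent.Helper85.VC
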