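import Pool.Agent.Helper85.VC.Ax

/-! # Transfer of first-order properties to the models of the common theory -/

namespace Pool.Agent.Helper85.VC

open FirstOrder FirstOrder.Language FirstOrder.Language.Structure Cardinal

variable {L : FirstOrder.Language.{0, 0}}

/-- the sentences true in all `Pt f`, `f : ℕ → ℕ → M` generic, `M` a countable model of `T` -/
def Tax (T : L.Theory) : Set (LL L).Sentence :=
  {σ | ∀ (M : CModel T) (f : ℕ → ℕ → M), Gen f → (Pt f) ⊨ σ}

theorem transfer {T : L.Theory} {N : Type} [(LL L).Structure N] (hN : ∀ σ ∈ Tax T, N ⊨ σ)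
    {α : Type} [Finite α] (φ : (LL L).Formula α)
    (h : ∀ (M : CModel T) (f : ℕ → ℕ → M), Gen f → ∀ v : α → Pt f, φ.Realize v) (v : α → N) :
    φ.Realize v := by
  have h1 : (Formula.iAlls α (φ.relabel (Sum.inr : α → Empty ⊕ α))) ∈ Tax T := by
    intro M f hf
    unfold Sentence.Realize
    rw [Formula.realize_iAlls]
    intro i
    rw [Formula.realize_relabel]
    exact h M f hf _
  have h2 := hN _ h1
  unfold Sentence.Realize at h2
  rw [Formula.realize_iAlls] at h2
  have h3 := h2 v
  rw [Formula.realize_relabel] at h3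
  exact h3

section builders

variable {α : Type} {N : Type} [(LL L).Structure N]

/-- atomic formula `isM t` -/
def fM (t : (LL L).Term α) : (LL L).Formula α :=
  Relations.formula₁ (Sum.inr R1.isM : (LL L).Relations 1) t
/-- atomic formula `isP t` -/
def fP (t : (LL L).Term α) : (LL L).Formula α :=
  Relations.formula₁ (Sum.inr R1.isP : (LL L).Relations 1) t
/-- atomic formula `isQ t` -/
def fQ (t : (LL L).Term α) : (LL L).Formula α :=
  Relations.formula₁ (Sum.inr R1.isQ : (LL L).Relations 1) t
/-- the term `F s t` -/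
def tF (s t : (LL L).Term α) : (LL L).Term α :=
  Functions.apply₂ (Sum.inr F1.F : (LL L).Functions 2) s t
/-- the constant `inf` -/
def tinf : (LL L).Term α := Term.func (Sum.inr F1.inf : (LL L).Functions 0) ![]
/-- the term `g ts` -/
def tg {n : ℕ} (g : L.Functions n) (ts : Fin n → (LL L).Term α) : (LL L).Term α :=
  Term.func (Sum.inl g : (LL L).Functions n) ts
/-- the formula `R ts` -/
def fR {n : ℕ} (R : L.Relations n) (ts : Fin n → (LL L).Term α) : (LL L).Formula α :=
  Relations.formula (Sum.inl R : (LL L).Relations n) ts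

@[simp] theorem realize_fM (t : (LL L).Term α) (v : α → N) :
    (fM t).Realize v ↔ isM L (t.realize v) := Formula.realize_rel₁
@[simp] theorem realize_fP (t : (LL L).Term α) (v : α → N) :
    (fP t).Realize v ↔ isP L (t.realize v) := Formula.realize_rel₁
@[simp] theorem realize_fQ (t : (LL L).Term α) (v : α → N) :
    (fQ t).Realize v ↔ isQ L (t.realize v) := Formula.realize_rel₁
@[simp] theorem realize_tF (s t : (LL L).Term α) (v : α → N) :
    (tF s t).realize v = FF L (s.realize v) (t.realize v) := Term.realize_functions_apply₂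
@[simp] theorem realize_tinf (v : α → N) :
    (tinf : (LL L).Term α).realize v = infty L N := by
  unfold infty
  change funMap (L := LL L) (Sum.inr F1.inf : (LL L).Functions 0) _ = _
  congr 1
  exact Subsingleton.elim _ _
@[simp] theorem realize_tg {n : ℕ} (g : L.Functions n) (ts : Fin n → (LL L).Term α) (v : α → N) :
    (tg g ts).realize v = gg L g (fun i => (ts i).realize v) := rfl
@[simp] theorem realize_fR {n : ℕ} (R : L.Relations n) (ts : Fin n → (LL L).Term α) (v : α → N) :
    (fR R ts).Realize v ↔ rr L R (fun i => (ts i).realize v) := Formula.realize_rel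

end builders

theorem inj_iff {J K : Type} (w : J → K) :
    (∀ x : {x : J × J // x.1 ≠ x.2}, ¬ w x.1.1 = w x.1.2) ↔ Function.Injective w := by
  constructor
  · intro h x y hxy
    by_contra hne
    exact h ⟨(x, y), hne⟩ hxy
  · intro h x hx
    exact x.2 (h hx)

theorem ex_unit_iff {K : Type} {P : K → Prop} : (∃ i : Unit → K, P (i ())) ↔ ∃ p, P p :=
  ⟨fun ⟨i, hi⟩ => ⟨i (), hi⟩, fun ⟨p, hp⟩ => ⟨fun _ => p, hp⟩⟩

theorem good_of_tax {T : L.Theory} {N : Type} [(LL L).Structure N]
    (hN : ∀ σ ∈ Tax T, N ⊨ σ) : Good L N := by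
  have tr := fun {α : Type} [Finite α] (φ : (LL L).Formula α) => transfer hN φ
  refine ⟨?_, ?_, ?_, ?_, ?_, ?_, ?_, ?_, ?_, ?_, ?_, ?_, ?_, ?_, ?_⟩
  · intro x
    have := tr (α := Fin 1) (fM (Term.var 0) ⊔ (fP (Term.var 0) ⊔ (fQ (Term.var 0) ⊔
      ((Term.var 0).equal tinf)))) (fun M f hf v => by
        simpa [Formula.realize_sup, Formula.realize_equal] using (good_pt (L := L) f hf).total (v 0)) ![x]
    simpa [Formula.realize_sup, Formula.realize_equal] using this
  · intro x
    have := tr (α := Fin 1) ((fM (Term.var 0)).imp (fP (Term.var 0)).not) (fun M f hf v => by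
        simpa using (good_pt (L := L) f hf).mp (v 0)) ![x]
    simpa using this
  · intro x
    have := tr (α := Fin 1) ((fM (Term.var 0)).imp (fQ (Term.var 0)).not) (fun M f hf v => by
        simpa using (good_pt (L := L) f hf).mq (v 0)) ![x]
    simpa using this
  · intro x
    have := tr (α := Fin 1) ((fP (Term.var 0)).imp (fQ (Term.var 0)).not) (fun M f hf v => by
        simpa using (good_pt (L := L) f hf).pq (v 0)) ![x]
    simpa using this
  · have := tr (α := Empty) (fM tinf).not (fun M f hf v => by
        simpa using (good_pt (L := L) f hf).infm) Empty.elim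
    simpa using this
  · have := tr (α := Empty) (fP tinf).not (fun M f hf v => by
        simpa using (good_pt (L := L) f hf).infp) Empty.elim
    simpa using this
  · have := tr (α := Empty) (fQ tinf).not (fun M f hf v => by
        simpa using (good_pt (L := L) f hf).infq) Empty.elim
    simpa using this
  · intro x y
    have := tr (α := Fin 2) ((fP (Term.var 0)).imp ((fQ (Term.var 1)).imp
      (fM (tF (Term.var 0) (Term.var 1))))) (fun M f hf v => by
        simpa using (good_pt (L := L) f hf).F_mem (v 0) (v 1)) ![x, y]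
    simpa using this
  · intro x y
    have := tr (α := Fin 2) ((fP (Term.var 0) ⊓ fQ (Term.var 1)).not.imp
      ((tF (Term.var 0) (Term.var 1)).equal tinf)) (fun M f hf v => by
        have := (good_pt (L := L) f hf).F_junk (v 0) (v 1)
        simpa [Formula.realize_equal, Formula.realize_inf, -not_and] using this) ![x, y]
    simpa [Formula.realize_equal, Formula.realize_inf, -not_and] using this
  · intro n g xs
    have := tr (α := Fin n) ((Formula.iInf fun i => fM (Term.var i)).imp
      (fM (tg g (fun i => Term.var i)))) (fun M f hf v => by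
        simpa using (good_pt (L := L) f hf).fun_mem n g v) xs
    simpa using this
  · intro n g xs i
    have := tr (α := Fin n) ((fM (Term.var i)).not.imp
      ((tg g (fun i => Term.var i)).equal tinf)) (fun M f hf v => by
        simpa [Formula.realize_equal] using (good_pt (L := L) f hf).fun_junk n g v i) xs
    simpa [Formula.realize_equal] using this
  · intro n R xs i
    have := tr (α := Fin n) ((fR R (fun i => Term.var i)).imp
      (fM (Term.var i))) (fun M f hf v => by
        simpa using (good_pt (L := L) f hf).rel_mem n R v i) xs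
    simpa using this
  · intro I J _ _ ps qs zs hinj hq hz
    let φ : (LL L).Formula (I ⊕ J ⊕ J) :=
      (Formula.iInf fun x : {x : J × J // x.1 ≠ x.2} =>
        ((Term.var (Sum.inr (Sum.inl x.1.1))).equal
          (Term.var (Sum.inr (Sum.inl x.1.2)))).not).imp
      ((Formula.iInf fun j : J => fQ (Term.var (Sum.inr (Sum.inl j)))).imp
      ((Formula.iInf fun j : J => fM (Term.var (Sum.inr (Sum.inr j)))).imp
      (Formula.iExs Unit (fP (Term.var (Sum.inr ())) ⊓
        ((Formula.iInf fun i : I => ((Term.var (Sum.inr ())).equal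
          (Term.var (Sum.inl (Sum.inl i)))).not) ⊓
        (Formula.iInf fun j : J => (tF (Term.var (Sum.inr ()))
          (Term.var (Sum.inl (Sum.inr (Sum.inl j))))).equal
            (Term.var (Sum.inl (Sum.inr (Sum.inr j))))))))))
    have hφ : ∀ {K : Type} [(LL L).Structure K] (v : I ⊕ J ⊕ J → K), φ.Realize v ↔
        (Function.Injective (fun j => v (Sum.inr (Sum.inl j))) →
        (∀ j, isQ L (v (Sum.inr (Sum.inl j)))) → (∀ j, isM L (v (Sum.inr (Sum.inr j)))) →
        ∃ p : K, isP L p ∧ (∀ i, p ≠ v (Sum.inl i)) ∧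
          ∀ j, FF L p (v (Sum.inr (Sum.inl j))) = v (Sum.inr (Sum.inr j))) := by
      intro K _ v
      simp only [φ, Formula.realize_imp, Formula.realize_iInf, Formula.realize_not,
        Formula.realize_equal, realize_fQ, realize_fM, Term.realize_var, Formula.realize_iExs,
        Formula.realize_inf, realize_fP, realize_tF, Sum.elim_inl, Sum.elim_inr]
      exact imp_congr (inj_iff (fun j => v (Sum.inr (Sum.inl j)))) (imp_congr Iff.rfl
        (imp_congr Iff.rfl (ex_unit_iff (P := fun p => isP L p ∧ (∀ i, p ≠ v (Sum.inl i)) ∧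
          ∀ j, FF L p (v (Sum.inr (Sum.inl j))) = v (Sum.inr (Sum.inr j))))))
    have := tr φ (fun M f hf v => by
      rw [hφ]
      exact (good_pt (L := L) f hf).left I J _ _ _) (Sum.elim ps (Sum.elim qs zs))
    rw [hφ] at this
    exact this hinj hq hz
  · intro I J _ _ qs ps zs hinj hq hz
    let φ : (LL L).Formula (I ⊕ J ⊕ J) :=
      (Formula.iInf fun x : {x : J × J // x.1 ≠ x.2} =>
        ((Term.var (Sum.inr (Sum.inl x.1.1))).equal
          (Term.var (Sum.inr (Sum.inl x.1.2)))).not).imp
      ((Formula.iInf fun j : J => fP (Term.var (Sum.inr (Sum.inl j)))).imp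
      ((Formula.iInf fun j : J => fM (Term.var (Sum.inr (Sum.inr j)))).imp
      (Formula.iExs Unit (fQ (Term.var (Sum.inr ())) ⊓
        ((Formula.iInf fun i : I => ((Term.var (Sum.inr ())).equal
          (Term.var (Sum.inl (Sum.inl i)))).not) ⊓
        (Formula.iInf fun j : J => (tF
          (Term.var (Sum.inl (Sum.inr (Sum.inl j)))) (Term.var (Sum.inr ()))).equal
            (Term.var (Sum.inl (Sum.inr (Sum.inr j))))))))))
    have hφ : ∀ {K : Type} [(LL L).Structure K] (v : I ⊕ J ⊕ J → K), φ.Realize v ↔
        (Function.Injective (fun j => v (Sum.inr (Sum.inl j))) →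
        (∀ j, isP L (v (Sum.inr (Sum.inl j)))) → (∀ j, isM L (v (Sum.inr (Sum.inr j)))) →
        ∃ p : K, isQ L p ∧ (∀ i, p ≠ v (Sum.inl i)) ∧
          ∀ j, FF L (v (Sum.inr (Sum.inl j))) p = v (Sum.inr (Sum.inr j))) := by
      intro K _ v
      simp only [φ, Formula.realize_imp, Formula.realize_iInf, Formula.realize_not,
        Formula.realize_equal, realize_fQ, realize_fM, Term.realize_var, Formula.realize_iExs,
        Formula.realize_inf, realize_fP, realize_tF, Sum.elim_inl, Sum.elim_inr]
      exact imp_congr (inj_iff (fun j => v (Sum.inr (Sum.inl j)))) (imp_congr Iff.rfl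
        (imp_congr Iff.rfl (ex_unit_iff (P := fun p => isQ L p ∧ (∀ i, p ≠ v (Sum.inl i)) ∧
          ∀ j, FF L (v (Sum.inr (Sum.inl j))) p = v (Sum.inr (Sum.inr j))))))
    have := tr φ (fun M f hf v => by
      rw [hφ]
      exact (good_pt (L := L) f hf).right I J _ _ _) (Sum.elim qs (Sum.elim ps zs))
    rw [hφ] at this
    exact this hinj hq hz
  · have := tr (α := Empty) (Formula.iExs Unit (fM (Term.var (Sum.inr ())))) (fun M f hf v => by
        rw [Formula.realize_iExs]
        obtain ⟨x, hx⟩ := (good_pt (L := L) f hf).ne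
        exact ⟨fun _ => x, by simpa using hx⟩) Empty.elim
    rw [Formula.realize_iExs] at this
    obtain ⟨x, hx⟩ := this
    exact ⟨x (), by simpa using hx⟩

end Pool.Agent.Helper85.VC
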